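import Mathlib

/-!
# Growth rate of stamp foldings and meanders: specification (helper397)

A strip with `n` creases has layers `0,…,n`; a folded state is a bijection `h` of the layers to the
heights such that the arcs (creases) on each side do not interleave.  Crease `e` (0-based) joins the
layers `e` and `e+1`; creases with even `e` lie on one side (R), odd `e` on the other (L).

Sweep the heights from below.  At time `t` (heights `< t` processed) the open arcs of each side
form a stack (ordered by their lower end `lo`).  Slot `c ≤ 7` is the R-arc of rank `7-c` from the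
top, slot `c ≥ 8` is the L-arc of rank `c-8` from the top.  The window automaton remembers which
slots in `0,…,15` are joined by a processed part of the strip (a bit mask, bit `16c+c'` for
`c<c'`).
-/

set_option autoImplicit false

namespace Pool.U397.SF

/-- lower end of arc `e` -/
def lo (H : ℕ → ℕ) (e : ℕ) : ℕ := min (H e) (H (e + 1))

/-- upper end of arc `e` -/
def hi (H : ℕ → ℕ) (e : ℕ) : ℕ := max (H e) (H (e + 1))

/-- `H` on `[0,n]` is a folded state (heights `0..n`). -/
structure Fold (n : ℕ) (H : ℕ → ℕ) : Prop where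
  le : ∀ i, i ≤ n → H i ≤ n
  inj : ∀ i j, i ≤ n → j ≤ n → H i = H j → i = j
  nc : ∀ e f, e < n → f < n → e % 2 = f % 2 →
    ¬ (lo H e < lo H f ∧ lo H f < hi H e ∧ hi H e < hi H f)

/-- there is an arc of side `σ` (`0` or `1`) whose lower end is at height `t` -/
def Up (n : ℕ) (H : ℕ → ℕ) (σ t : ℕ) : Prop := ∃ e, e < n ∧ e % 2 = σ ∧ lo H e = t

/-- arc `e` is open at time `t` -/
def Opn (H : ℕ → ℕ) (t e : ℕ) : Prop := lo H e < t ∧ t ≤ hi H e

instance (H : ℕ → ℕ) (t e : ℕ) : Decidable (Opn H t e) := by unfold Opn; infer_instance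

/-- rank from the top in the stack of its side -/
def rk (n : ℕ) (H : ℕ → ℕ) (t e : ℕ) : ℕ :=
  ((Finset.range n).filter (fun f => f % 2 = e % 2 ∧ Opn H t f ∧ lo H e < lo H f)).card

/-- the open arc `e` sits in slot `c` at time `t` -/
def At (n : ℕ) (H : ℕ → ℕ) (t c e : ℕ) : Prop :=
  e < n ∧ Opn H t e ∧
    ((e % 2 = 0 ∧ c + rk n H t e = 7) ∨ (e % 2 = 1 ∧ c = 8 + rk n H t e))

/-- the layers strictly between the arcs `e` and `f` are all processed at time `t` -/
def Mt (H : ℕ → ℕ) (t e f : ℕ) : Prop := ∀ i, min e f < i → i ≤ max e f → H i < t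

/-- slots `c` and `c'` are joined at time `t` -/
def PP (n : ℕ) (H : ℕ → ℕ) (t c c' : ℕ) : Prop :=
  ∃ e f, e ≠ f ∧ At n H t c e ∧ At n H t c' f ∧ Mt H t e f

/-- forward maps of the slots -/
def foo (c : ℕ) : ℕ := if c ≤ 7 then c - 1 else c + 1
def fcc (c : ℕ) : ℕ := if c ≤ 6 then c + 1 else c - 1

/-- **Package SM** (semantics of one step).  `t = H i`, `0 < i < n`. -/
def S_SM : Prop := ∀ (n : ℕ) (H : ℕ → ℕ) (i : ℕ), Fold n H → 0 < i → i < n →
  -- close R, open L
  (¬ Up n H 0 (H i) → Up n H 1 (H i) →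
    ∀ c c', PP n H (H i) c c' → PP n H (H i + 1) (c + 1) (c' + 1)) ∧
  -- open R, close L
  (Up n H 0 (H i) → ¬ Up n H 1 (H i) →
    ∀ c c', PP n H (H i) (c + 1) (c' + 1) → PP n H (H i + 1) c c') ∧
  -- open both
  (Up n H 0 (H i) → Up n H 1 (H i) →
    PP n H (H i + 1) 7 8 ∧
    ∀ c c', c ≠ 0 → c' ≠ 0 → PP n H (H i) c c' → PP n H (H i + 1) (foo c) (foo c')) ∧
  -- close both
  (¬ Up n H 0 (H i) → ¬ Up n H 1 (H i) →
    ¬ PP n H (H i) 7 8 ∧
    (∀ c c', c ≠ 7 → c ≠ 8 → c' ≠ 7 → c' ≠ 8 →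
      PP n H (H i) c c' → PP n H (H i + 1) (fcc c) (fcc c')) ∧
    (∀ x y, x ≠ 7 → x ≠ 8 → y ≠ 7 → y ≠ 8 →
      PP n H (H i) x 7 → PP n H (H i) y 8 → PP n H (H i + 1) (fcc x) (fcc y)))

/-- **Package IN** (a folded state is determined by its word and the heights of the two end
layers). -/
def S_IN : Prop := ∀ (n : ℕ) (H H' : ℕ → ℕ), Fold n H → Fold n H' → H 0 = H' 0 → H n = H' n →
  (∀ σ t, σ < 2 → t ≤ n → (Up n H σ t ↔ Up n H' σ t)) → ∀ i, i ≤ n → H i = H' i

/-- validity of a word of `m` letters read from time `t` in state `s`; at the times `p`, `q` the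
state is reset to `0`. -/
def valid (nxt : ℕ → Bool × Bool → ℕ) (bad : ℕ → Bool × Bool → Bool) (p q : ℕ) :
    (m : ℕ) → (t s : ℕ) → (Fin m → Bool × Bool) → Prop
  | 0, _, _, _ => True
  | m + 1, t, s, w =>
    ((t = p ∨ t = q) ∧ valid nxt bad p q m (t + 1) 0 (fun i => w i.succ)) ∨
    (¬ (t = p ∨ t = q) ∧ bad s (w 0) = false ∧
      valid nxt bad p q m (t + 1) (nxt s (w 0)) (fun i => w i.succ))

/-- **Package CT** (counting). -/
def S_CT : Prop := ∀ (nxt : ℕ → Bool × Bool → ℕ) (bad : ℕ → Bool × Bool → Bool) (v : ℕ → ℕ)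
  (K num den : ℕ), 0 < K → 0 < den → den ≤ num → (∀ s, s < K → 1 ≤ v s) →
  (∀ s, s < K → ∀ a, bad s a = false → nxt s a < K) →
  (∀ s, s < K → (∑ a : Bool × Bool, if bad s a = false then v (nxt s a) else 0) * den
      ≤ num * v s) →
  ∀ p q m : ℕ, (Nat.card {w : Fin m → Bool × Bool // valid nxt bad p q m 0 0 w}) * den ^ m
      ≤ (4 * v 0) ^ 2 * num ^ m * v 0

/-- The folded states of a strip with `n` creases: `h` is the height of each layer; the arcs of
creases at the same end (same parity of the index) do not interleave. -/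
def NonPen (n : ℕ) (h : Equiv.Perm (Fin (n + 1))) : Prop :=
  ∀ j k : Fin n, (j : ℕ) % 2 = (k : ℕ) % 2 →
    ¬ (min (h j.castSucc) (h j.succ) < min (h k.castSucc) (h k.succ) ∧
       min (h k.castSucc) (h k.succ) < max (h j.castSucc) (h j.succ) ∧
       max (h j.castSucc) (h j.succ) < max (h k.castSucc) (h k.succ))

/-- number of folded states of a strip with `n` creases -/
noncomputable def foldings (n : ℕ) : ℕ := Nat.card {h : Equiv.Perm (Fin (n + 1)) // NonPen n h}

/-- meanders with `2N` crossings, as in the frozen statement of MP_302a52_co -/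
def Meanders (N : ℕ) : Set (Equiv.Perm (Fin (2 * N)) × Equiv.Perm (Fin (2 * N))) :=
  {p | (∀ i, p.1 (p.1 i) = i ∧ p.1 i ≠ i) ∧
       (∀ i, p.2 (p.2 i) = i ∧ p.2 i ≠ i) ∧
       (∀ i j, ¬ (i < j ∧ j < p.1 i ∧ p.1 i < p.1 j)) ∧
       (∀ i j, ¬ (i < j ∧ j < p.2 i ∧ p.2 i < p.2 j)) ∧
       (∀ i j, ∃ g ∈ Subgroup.closure ({p.1, p.2} : Set (Equiv.Perm (Fin (2 * N)))), g i = j)}

/-- **Package ME** (cutting a meander open gives a folded strip; injective). -/
def S_ME : Prop := ∀ n : ℕ, (Meanders (n + 1)).ncard ≤ foldings (2 * n + 1)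

end Pool.U397.SF
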