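import Pool.Agent.U397.SF.Chk
import Pool.Agent.U397.SF.Spec

/-!
# From the table check to the semantics (helper397)
-/

set_option autoImplicit false

namespace Pool.U397.SF

theorem tb_eq (m i : ℕ) : tb m i = Nat.testBit m i := by
  unfold tb
  rw [Nat.testBit_eq_decide_div_mod_eq]
  show Nat.beq ((m >>> i) % 2) 1 = _
  rw [Nat.shiftRight_eq_div_pow]
  rcases Nat.mod_two_eq_zero_or_one (m / 2 ^ i) with h | h <;> rw [h] <;> rfl

theorem sub_spec {a b : ℕ} (h : sub a b = true) (j : ℕ) (hj : a.testBit j = true) :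
    b.testBit j = true := by
  have h' : Nat.land a b = a := Nat.eq_of_beq_eq_true h
  have h2 : (Nat.land a b).testBit j = true := by rw [h']; exact hj
  have h3 : (a &&& b).testBit j = true := h2
  rw [Nat.testBit_and, Bool.and_eq_true] at h3
  exact h3.2

theorem bit_LL : ∀ a < 18, ∀ b < 16, (Nat.testBit mLL (16 * a + b) = true ↔ a < b ∧ b ≤ 7) := by
  decide +kernel
theorem bit_RR : ∀ a < 18, ∀ b < 16, (Nat.testBit mRR (16 * a + b) = true ↔ a < b ∧ 8 ≤ a) := by
  decide +kernel
theorem bit_LR : ∀ a < 18, ∀ b < 16,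
    (Nat.testBit mLR (16 * a + b) = true ↔ a ≤ 7 ∧ 8 ≤ b) := by
  decide +kernel
theorem bit_L6 : ∀ a < 18, ∀ b < 16, (Nat.testBit mL6 (16 * a + b) = true ↔ a < b ∧ b ≤ 6) := by
  decide +kernel
theorem bit_R9 : ∀ a < 18, ∀ b < 16, (Nat.testBit mR9 (16 * a + b) = true ↔ a < b ∧ 9 ≤ a) := by
  decide +kernel
theorem bit_X9 : ∀ a < 18, ∀ b < 16,
    (Nat.testBit mX9 (16 * a + b) = true ↔ a ≤ 6 ∧ 9 ≤ b) := by
  decide +kernel
theorem bit_W : ∀ a < 18, ∀ b < 16, (Nat.testBit mW (16 * a + b) = true ↔ a < b) := by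
  decide +kernel

theorem PP_symm {n : ℕ} {H : ℕ → ℕ} {t c d : ℕ} (h : PP n H t c d) : PP n H t d c := by
  obtain ⟨e, f, h1, h2, h3, h4⟩ := h
  refine ⟨f, e, h1.symm, h3, h2, ?_⟩
  intro i hi1 hi2
  exact h4 i (by rw [min_comm]; exact hi1) (by rw [max_comm]; exact hi2)

/-- the claims of the mask `m` hold at time `t` -/
def Cmp (n : ℕ) (H : ℕ → ℕ) (t m : ℕ) : Prop :=
  ∀ c d, c < d → d < 16 → m.testBit (16 * c + d) = true → PP n H t c d

theorem Cmp.pc {n : ℕ} {H : ℕ → ℕ} {t m : ℕ} (h : Cmp n H t m) {c d : ℕ} (hcd : c ≠ d)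
    (hc : c < 16) (hd : d < 16) (hp : PC m c d = true) : PP n H t c d := by
  unfold PC at hp
  rw [tb_eq] at hp
  rcases Nat.lt_or_gt_of_ne hcd with h1 | h1
  · rw [min_eq_left h1.le, max_eq_right h1.le] at hp
    exact h c d h1 hd hp
  · rw [min_eq_right h1.le, max_eq_left h1.le] at hp
    exact PP_symm (h d c h1 hc hp)

theorem cmp_zero (n : ℕ) (H : ℕ → ℕ) (t : ℕ) : Cmp n H t 0 := by
  intro c d _ _ h
  simp at h

/-- close R, open L -/
theorem cmp_co {n : ℕ} {H : ℕ → ℕ} {t t' m m' : ℕ}
    (hS : ∀ c c', PP n H t c c' → PP n H t' (c + 1) (c' + 1))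
    (hm : Cmp n H t m) (hs : sub m' (Nat.shiftLeft m 17) = true) : Cmp n H t' m' := by
  intro c d hcd hd hb
  have h := sub_spec hs _ hb
  change (m <<< 17).testBit (16 * c + d) = true at h
  rw [Nat.testBit_shiftLeft, Bool.and_eq_true, decide_eq_true_eq] at h
  obtain ⟨h1, h2⟩ := h
  obtain ⟨c, rfl⟩ : ∃ x, c = x + 1 := ⟨c - 1, by omega⟩
  obtain ⟨d, rfl⟩ : ∃ x, d = x + 1 := ⟨d - 1, by omega⟩
  have e : 16 * (c + 1) + (d + 1) - 17 = 16 * c + d := by omega
  rw [e] at h2
  exact hS _ _ (hm c d (by omega) (by omega) h2)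

/-- open R, close L -/
theorem cmp_oc {n : ℕ} {H : ℕ → ℕ} {t t' m m' : ℕ}
    (hS : ∀ c c', PP n H t (c + 1) (c' + 1) → PP n H t' c c')
    (hW : sub m mW = true)
    (hm : Cmp n H t m) (hs : sub m' (Nat.shiftRight m 17) = true) : Cmp n H t' m' := by
  intro c d hcd hd hb
  have h := sub_spec hs _ hb
  change (m >>> 17).testBit (16 * c + d) = true at h
  rw [Nat.testBit_shiftRight] at h
  rcases Nat.lt_or_ge (d + 1) 16 with h1 | h1
  · have e : 17 + (16 * c + d) = 16 * (c + 1) + (d + 1) := by omega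
    rw [e] at h
    exact hS _ _ (hm (c + 1) (d + 1) (by omega) (by omega) h)
  · exfalso
    have e : 17 + (16 * c + d) = 16 * (c + 2) + 0 := by omega
    rw [e] at h
    have h2 := sub_spec hW _ h
    rw [bit_W (c + 2) (by omega) 0 (by omega)] at h2
    omega

/-- open both -/
theorem cmp_oo {n : ℕ} {H : ℕ → ℕ} {t t' m m' : ℕ}
    (hS0 : PP n H t' 7 8)
    (hS : ∀ c c', c ≠ 0 → c' ≠ 0 → PP n H t c c' → PP n H t' (foo c) (foo c'))
    (hm : Cmp n H t m) (hs : sub m' (dOO m) = true) : Cmp n H t' m' := by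
  intro c d hcd hd hb
  have h := sub_spec hs _ hb
  change ((((m &&& mLL) >>> 17) ||| ((m &&& mRR) <<< 17)) |||
    (((m &&& mLR) >>> 15) ||| 2 ^ 120)).testBit (16 * c + d) = true at h
  rw [Nat.testBit_or, Nat.testBit_or, Nat.testBit_or, Bool.or_eq_true, Bool.or_eq_true,
    Bool.or_eq_true, Nat.testBit_shiftRight, Nat.testBit_shiftLeft, Nat.testBit_shiftRight,
    Nat.testBit_and, Nat.testBit_and, Nat.testBit_and, Bool.and_eq_true, Bool.and_eq_true,
    Bool.and_eq_true, Bool.and_eq_true, decide_eq_true_eq] at h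
  rcases h with (⟨h1, h2⟩ | ⟨h0, h1, h2⟩) | (⟨h1, h2⟩ | h1)
  · rcases Nat.lt_or_ge (d + 1) 16 with h3 | h3
    · have e : 17 + (16 * c + d) = 16 * (c + 1) + (d + 1) := by omega
      rw [e] at h1 h2
      rw [bit_LL (c + 1) (by omega) (d + 1) h3] at h2
      have h4 := hS (c + 1) (d + 1) (by omega) (by omega)
        (hm (c + 1) (d + 1) (by omega) (by omega) h1)
      have e1 : foo (c + 1) = c := by unfold foo; rw [if_pos (by omega)]; rfl
      have e2 : foo (d + 1) = d := by unfold foo; rw [if_pos (by omega)]; rfl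
      rw [e1, e2] at h4
      exact h4
    · exfalso
      have e : 17 + (16 * c + d) = 16 * (c + 2) + 0 := by omega
      rw [e] at h2
      rw [bit_LL (c + 2) (by omega) 0 (by omega)] at h2
      omega
  · obtain ⟨c, rfl⟩ : ∃ x, c = x + 1 := ⟨c - 1, by omega⟩
    obtain ⟨d, rfl⟩ : ∃ x, d = x + 1 := ⟨d - 1, by omega⟩
    have e : 16 * (c + 1) + (d + 1) - 17 = 16 * c + d := by omega
    rw [e] at h1 h2
    rw [bit_RR c (by omega) d (by omega)] at h2
    have h4 := hS c d (by omega) (by omega) (hm c d (by omega) (by omega) h1)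
    have e1 : foo c = c + 1 := by unfold foo; rw [if_neg (by omega)]
    have e2 : foo d = d + 1 := by unfold foo; rw [if_neg (by omega)]
    rw [e1, e2] at h4
    exact h4
  · obtain ⟨d, rfl⟩ : ∃ x, d = x + 1 := ⟨d - 1, by omega⟩
    have e : 15 + (16 * c + (d + 1)) = 16 * (c + 1) + d := by omega
    rw [e] at h1 h2
    rw [bit_LR (c + 1) (by omega) d (by omega)] at h2
    have h4 := hS (c + 1) d (by omega) (by omega)
        (hm (c + 1) d (by omega) (by omega) h1)
    have e1 : foo (c + 1) = c := by unfold foo; rw [if_pos (by omega)]; rfl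
    have e2 : foo d = d + 1 := by unfold foo; rw [if_neg (by omega)]
    rw [e1, e2] at h4
    exact h4
  · rw [Nat.testBit_two_pow, decide_eq_true_eq] at h1
    have e1 : c = 7 := by omega
    have e2 : d = 8 := by omega
    rw [e1, e2]
    exact hS0

/-- close both -/
theorem cmp_cc {n : ℕ} {H : ℕ → ℕ} {t t' m m' x y : ℕ}
    (hS : ∀ c c', c ≠ 7 → c ≠ 8 → c' ≠ 7 → c' ≠ 8 →
      PP n H t c c' → PP n H t' (fcc c) (fcc c'))
    (hS2 : ∀ x y, x ≠ 7 → x ≠ 8 → y ≠ 7 → y ≠ 8 →
      PP n H t x 7 → PP n H t y 8 → PP n H t' (fcc x) (fcc y))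
    (hm : Cmp n H t m) (hs : sub m' (Nat.lor (dCC m) (dMG m x y)) = true) :
    Cmp n H t' m' := by
  intro c d hcd hd hb
  have h := sub_spec hs _ hb
  change (((((m &&& mL6) <<< 17) ||| ((m &&& mR9) >>> 17)) |||
    ((m &&& mX9) <<< 15)) ||| dMG m x y).testBit (16 * c + d) = true at h
  rw [Nat.testBit_or, Nat.testBit_or, Nat.testBit_or, Bool.or_eq_true, Bool.or_eq_true,
    Bool.or_eq_true, Nat.testBit_shiftRight, Nat.testBit_shiftLeft, Nat.testBit_shiftLeft,
    Nat.testBit_and, Nat.testBit_and, Nat.testBit_and, Bool.and_eq_true, Bool.and_eq_true,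
    Bool.and_eq_true, Bool.and_eq_true, Bool.and_eq_true, decide_eq_true_eq,
    decide_eq_true_eq] at h
  rcases h with ((⟨h0, h1, h2⟩ | ⟨h1, h2⟩) | ⟨h0, h1, h2⟩) | h1
  · obtain ⟨c, rfl⟩ : ∃ x, c = x + 1 := ⟨c - 1, by omega⟩
    obtain ⟨d, rfl⟩ : ∃ x, d = x + 1 := ⟨d - 1, by omega⟩
    have e : 16 * (c + 1) + (d + 1) - 17 = 16 * c + d := by omega
    rw [e] at h1 h2
    rw [bit_L6 c (by omega) d (by omega)] at h2
    have h4 := hS c d (by omega) (by omega) (by omega) (by omega)
      (hm c d (by omega) (by omega) h1)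
    have e1 : fcc c = c + 1 := by unfold fcc; rw [if_pos (by omega)]
    have e2 : fcc d = d + 1 := by unfold fcc; rw [if_pos (by omega)]
    rw [e1, e2] at h4
    exact h4
  · rcases Nat.lt_or_ge (d + 1) 16 with h3 | h3
    · have e : 17 + (16 * c + d) = 16 * (c + 1) + (d + 1) := by omega
      rw [e] at h1 h2
      rw [bit_R9 (c + 1) (by omega) (d + 1) h3] at h2
      have h4 := hS (c + 1) (d + 1) (by omega) (by omega) (by omega) (by omega)
        (hm (c + 1) (d + 1) (by omega) (by omega) h1)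
      have e1 : fcc (c + 1) = c := by unfold fcc; rw [if_neg (by omega)]; rfl
      have e2 : fcc (d + 1) = d := by unfold fcc; rw [if_neg (by omega)]; rfl
      rw [e1, e2] at h4
      exact h4
    · exfalso
      have e : 17 + (16 * c + d) = 16 * (c + 2) + 0 := by omega
      rw [e] at h2
      rw [bit_R9 (c + 2) (by omega) 0 (by omega)] at h2
      omega
  · rcases Nat.eq_zero_or_pos c with hc0 | hc0
    · subst hc0
      exfalso
      have e : 16 * 0 + d - 15 = 16 * 0 + 0 := by omega
      rw [e] at h2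
      rw [bit_X9 0 (by omega) 0 (by omega)] at h2
      omega
    · obtain ⟨c, rfl⟩ : ∃ x, c = x + 1 := ⟨c - 1, by omega⟩
      rcases Nat.lt_or_ge (d + 1) 16 with h3 | h3
      · have e : 16 * (c + 1) + d - 15 = 16 * c + (d + 1) := by omega
        rw [e] at h1 h2
        rw [bit_X9 c (by omega) (d + 1) h3] at h2
        have h4 := hS c (d + 1) (by omega) (by omega) (by omega) (by omega)
          (hm c (d + 1) (by omega) (by omega) h1)
        have e1 : fcc c = c + 1 := by unfold fcc; rw [if_pos (by omega)]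
        have e2 : fcc (d + 1) = d := by unfold fcc; rw [if_neg (by omega)]; rfl
        rw [e1, e2] at h4
        exact h4
      · exfalso
        have e : 16 * (c + 1) + d - 15 = 16 * (c + 1) + 0 := by omega
        rw [e] at h2
        rw [bit_X9 (c + 1) (by omega) 0 (by omega)] at h2
        omega
  · unfold dMG at h1
    rcases hcond : (sl x && sl y && PC m x 7 && PC m y 8) with _ | _
    · rw [hcond] at h1
      simp at h1
    · rw [hcond] at h1
      simp only [cond_true] at h1
      rw [Nat.testBit_two_pow, decide_eq_true_eq] at h1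
      rw [Bool.and_eq_true, Bool.and_eq_true, Bool.and_eq_true] at hcond
      obtain ⟨⟨⟨hx, hy⟩, hp⟩, hq⟩ := hcond
      have hx' : x ≤ 6 ∨ (9 ≤ x ∧ x ≤ 15) := by
        unfold sl at hx
        simp only [Bool.or_eq_true, Bool.and_eq_true, Nat.ble_eq] at hx
        exact hx
      have hy' : y ≤ 6 ∨ (9 ≤ y ∧ y ≤ 15) := by
        unfold sl at hy
        simp only [Bool.or_eq_true, Bool.and_eq_true, Nat.ble_eq] at hy
        exact hy
      have hpx := hm.pc (c := x) (d := 7) (by omega) (by omega) (by omega) hp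
      have hpy := hm.pc (c := y) (d := 8) (by omega) (by omega) (by omega) hq
      have h5 := hS2 x y (by omega) (by omega) (by omega) (by omega) hpx hpy
      have ex : fc x = fcc x := by
        unfold fc fcc
        rcases hx' with h6 | h6
        · rw [if_pos h6]
          have : Nat.ble x 6 = true := by rw [Nat.ble_eq]; exact h6
          rw [this]; rfl
        · rw [if_neg (by omega)]
          have : Nat.ble x 6 = false := by
            rw [Bool.eq_false_iff]; intro h7; rw [Nat.ble_eq] at h7; omega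
          rw [this]; rfl
      have ey : fc y = fcc y := by
        unfold fc fcc
        rcases hy' with h6 | h6
        · rw [if_pos h6]
          have : Nat.ble y 6 = true := by rw [Nat.ble_eq]; exact h6
          rw [this]; rfl
        · rw [if_neg (by omega)]
          have : Nat.ble y 6 = false := by
            rw [Bool.eq_false_iff]; intro h7; rw [Nat.ble_eq] at h7; omega
          rw [this]; rfl
      rw [ex, ey] at h1
      have bx : fcc x < 16 := by unfold fcc; split <;> omega
      have by' : fcc y < 16 := by unfold fcc; split <;> omega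
      rcases le_total (fcc x) (fcc y) with h8 | h8
      · rw [min_eq_left h8, max_eq_right h8] at h1
        have e1 : c = fcc x := by omega
        have e2 : d = fcc y := by omega
        rw [e1, e2]; exact h5
      · rw [min_eq_right h8, max_eq_left h8] at h1
        have e1 : c = fcc y := by omega
        have e2 : d = fcc x := by omega
        rw [e1, e2]; exact PP_symm h5

end Pool.U397.SF
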