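import Pool.Agent.U397.SF.Spec

/-! # Project SF, package CT: counting words of a window automaton with two resets (helper64) -/

set_option autoImplicit false

namespace Pool.U397.SF

/-- the number of admissible times for the two resets from time `t` on -/
def rr (p q t : ℕ) : ℕ := (if t ≤ p then 1 else 0) + (if t ≤ q then 1 else 0)

lemma rr_succ_le (p q t : ℕ) : rr p q (t + 1) ≤ rr p q t := by
  unfold rr
  split_ifs <;> omega

lemma rr_reset {p q t : ℕ} (h : t = p ∨ t = q) : rr p q (t + 1) + 1 ≤ rr p q t := by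
  unfold rr
  split_ifs <;> omega

section

variable (nxt : ℕ → Bool × Bool → ℕ) (bad : ℕ → Bool × Bool → Bool) (p q : ℕ)

/-- the number of valid words -/
noncomputable def cnt (m t s : ℕ) : ℕ :=
  Nat.card {w : Fin m → Bool × Bool // valid nxt bad p q m t s w}

lemma cnt_zero (t s : ℕ) : cnt nxt bad p q 0 t s ≤ 1 := by
  unfold cnt
  have h := Nat.card_le_card_of_injective
    (Subtype.val : {w : Fin 0 → Bool × Bool // valid nxt bad p q 0 t s w} → (Fin 0 → Bool × Bool))
    Subtype.val_injective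
  refine h.trans (le_of_eq ?_)
  simp

lemma cnt_succ (m t s : ℕ) : cnt nxt bad p q (m + 1) t s ≤
    ∑ a : Bool × Bool, Nat.card {w : Fin m → Bool × Bool //
      ((t = p ∨ t = q) ∧ valid nxt bad p q m (t + 1) 0 w) ∨
      (¬ (t = p ∨ t = q) ∧ bad s a = false ∧ valid nxt bad p q m (t + 1) (nxt s a) w)} := by
  unfold cnt
  rw [← Nat.card_sigma]
  refine Nat.card_le_card_of_injective
    (fun w => ⟨w.1 0, ⟨fun i => w.1 i.succ, w.2⟩⟩) ?_
  rintro ⟨w, hw⟩ ⟨w', hw'⟩ h
  simp only [Sigma.mk.injEq] at h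
  obtain ⟨h1, h2⟩ := h
  apply Subtype.ext
  have h3 : (fun i : Fin m => w i.succ) = fun i : Fin m => w' i.succ := by
    have key : ∀ (a b : Bool × Bool) (hab : a = b)
        (x : {w : Fin m → Bool × Bool // ((t = p ∨ t = q) ∧ valid nxt bad p q m (t + 1) 0 w) ∨
          (¬ (t = p ∨ t = q) ∧ bad s a = false ∧ valid nxt bad p q m (t + 1) (nxt s a) w)})
        (y : {w : Fin m → Bool × Bool // ((t = p ∨ t = q) ∧ valid nxt bad p q m (t + 1) 0 w) ∨
          (¬ (t = p ∨ t = q) ∧ bad s b = false ∧ valid nxt bad p q m (t + 1) (nxt s b) w)}),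
        HEq x y → x.1 = y.1 := by
      rintro a b rfl x y hxy
      rw [eq_of_heq hxy]
    exact key _ _ h1 _ _ h2
  funext i
  refine Fin.cases ?_ (fun j => ?_) i
  · exact h1
  · exact congrFun h3 j

lemma cnt_reset {m t s : ℕ} (h : t = p ∨ t = q) :
    cnt nxt bad p q (m + 1) t s ≤ 4 * cnt nxt bad p q m (t + 1) 0 := by
  refine (cnt_succ nxt bad p q m t s).trans (le_of_eq ?_)
  have e : ∀ a : Bool × Bool, Nat.card {w : Fin m → Bool × Bool //
      ((t = p ∨ t = q) ∧ valid nxt bad p q m (t + 1) 0 w) ∨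
      (¬ (t = p ∨ t = q) ∧ bad s a = false ∧ valid nxt bad p q m (t + 1) (nxt s a) w)} =
      cnt nxt bad p q m (t + 1) 0 := by
    intro a
    unfold cnt
    refine Nat.card_congr (Equiv.subtypeEquivRight fun w => ?_)
    tauto
  rw [Finset.sum_congr rfl fun a _ => e a]
  simp

lemma cnt_step {m t s : ℕ} (h : ¬ (t = p ∨ t = q)) :
    cnt nxt bad p q (m + 1) t s ≤
      ∑ a : Bool × Bool, if bad s a = false then cnt nxt bad p q m (t + 1) (nxt s a) else 0 := by
  refine (cnt_succ nxt bad p q m t s).trans (Finset.sum_le_sum fun a _ => ?_)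
  split_ifs with ha
  · unfold cnt
    refine le_of_eq (Nat.card_congr (Equiv.subtypeEquivRight fun w => ?_))
    tauto
  · refine le_of_eq ?_
    rw [Nat.card_eq_zero]
    left
    refine ⟨fun w => ?_⟩
    rcases w.2 with h1 | h1
    · exact h h1.1
    · exact ha h1.2.1

end

lemma main_count (nxt : ℕ → Bool × Bool → ℕ) (bad : ℕ → Bool × Bool → Bool) (v : ℕ → ℕ)
    (K num den : ℕ) (hK : 0 < K) (hdn : den ≤ num)
    (hv : ∀ s, s < K → 1 ≤ v s) (hn : ∀ s, s < K → ∀ a, bad s a = false → nxt s a < K)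
    (hsum : ∀ s, s < K → (∑ a : Bool × Bool, if bad s a = false then v (nxt s a) else 0) * den
      ≤ num * v s) (p q : ℕ) :
    ∀ m t s : ℕ, s < K → cnt nxt bad p q m t s * den ^ m ≤
      (4 * v 0) ^ rr p q t * num ^ m * v s := by
  have hv0 : 1 ≤ 4 * v 0 := by
    have := hv 0 hK
    omega
  intro m
  induction m with
  | zero =>
    intro t s hs
    have h1 := cnt_zero nxt bad p q t s
    have h2 : 1 ≤ (4 * v 0) ^ rr p q t := Nat.one_le_pow _ _ hv0
    have h3 := hv s hs
    simp only [pow_zero, mul_one]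
    calc cnt nxt bad p q 0 t s ≤ 1 * 1 := by rw [mul_one]; exact h1
      _ ≤ _ := Nat.mul_le_mul h2 h3
  | succ m ih =>
    intro t s hs
    by_cases h : t = p ∨ t = q
    · have h1 := cnt_reset nxt bad p q (m := m) (s := s) h
      have h2 := ih (t + 1) 0 hK
      have h3 := rr_reset h
      have h4 := hv s hs
      calc cnt nxt bad p q (m + 1) t s * den ^ (m + 1)
          ≤ (4 * cnt nxt bad p q m (t + 1) 0) * den ^ (m + 1) := Nat.mul_le_mul_right _ h1
        _ = 4 * (cnt nxt bad p q m (t + 1) 0 * den ^ m) * den := by ring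
        _ ≤ 4 * ((4 * v 0) ^ rr p q (t + 1) * num ^ m * v 0) * num :=
            Nat.mul_le_mul (Nat.mul_le_mul_left _ h2) hdn
        _ = (4 * v 0) ^ (rr p q (t + 1) + 1) * num ^ (m + 1) * 1 := by ring
        _ ≤ (4 * v 0) ^ rr p q t * num ^ (m + 1) * v s :=
            Nat.mul_le_mul (Nat.mul_le_mul_right _ (Nat.pow_le_pow_right hv0 h3)) h4
    · have h1 := cnt_step nxt bad p q (m := m) (s := s) h
      have h3 := rr_succ_le p q t
      calc cnt nxt bad p q (m + 1) t s * den ^ (m + 1)
          ≤ (∑ a : Bool × Bool, if bad s a = false then cnt nxt bad p q m (t + 1) (nxt s a)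
              else 0) * den ^ (m + 1) := Nat.mul_le_mul_right _ h1
        _ = (∑ a : Bool × Bool, (if bad s a = false then cnt nxt bad p q m (t + 1) (nxt s a)
              else 0) * den ^ m) * den := by rw [pow_succ, ← mul_assoc, Finset.sum_mul]
        _ ≤ (∑ a : Bool × Bool, (4 * v 0) ^ rr p q (t + 1) * num ^ m *
              (if bad s a = false then v (nxt s a) else 0)) * den := by
            refine Nat.mul_le_mul_right _ (Finset.sum_le_sum fun a _ => ?_)
            split_ifs with ha
            · exact ih (t + 1) (nxt s a) (hn s hs a ha)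
            · simp
        _ = (4 * v 0) ^ rr p q (t + 1) * num ^ m *
              ((∑ a : Bool × Bool, if bad s a = false then v (nxt s a) else 0) * den) := by
            rw [← Finset.mul_sum, mul_assoc]
        _ ≤ (4 * v 0) ^ rr p q (t + 1) * num ^ m * (num * v s) :=
            Nat.mul_le_mul_left _ (hsum s hs)
        _ = (4 * v 0) ^ rr p q (t + 1) * (num ^ (m + 1) * v s) := by ring
        _ ≤ (4 * v 0) ^ rr p q t * (num ^ (m + 1) * v s) :=
            Nat.mul_le_mul_right _ (Nat.pow_le_pow_right hv0 h3)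
        _ = _ := by ring

/-- **Package CT.** -/
theorem t_CT : S_CT := by
  intro nxt bad v K num den hK hden hdn hv hn hsum p q m
  have h := main_count nxt bad v K num den hK hdn hv hn hsum p q m 0 0 hK
  have e : rr p q 0 = 2 := by simp [rr]
  rw [e] at h
  exact h

end Pool.U397.SF
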