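import Pool.Agent.U397.SF.Spec

/-! # Package IN of project SF (helper139): a folded state is determined by its up/down word -/

set_option autoImplicit false

namespace Pool.U397.SF

open Finset

/-- Two non-crossing perfect matchings of a finite set of integers with the same opening points are equal at the opening
points: one inequality. -/
private lemma match_le (D : Finset ℕ) (p p' : ℕ → ℕ) (hD : ∀ x ∈ D, p x ∈ D) (hD' : ∀ x ∈ D, p' x ∈ D)
    (hpp : ∀ x ∈ D, p (p x) = x) (hpp' : ∀ x ∈ D, p' (p' x) = x) (hne' : ∀ x ∈ D, p' x ≠ x)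
    (nc : ∀ x ∈ D, ∀ y ∈ D, ¬ (x < y ∧ y < p x ∧ p x < p y))
    (nc' : ∀ x ∈ D, ∀ y ∈ D, ¬ (x < y ∧ y < p' x ∧ p' x < p' y))
    (hop : ∀ x ∈ D, (x < p x ↔ x < p' x)) (x : ℕ) (hx : x ∈ D) (hxp : x < p x) : ¬ p x < p' x := by
  intro hlt
  set O := D.filter (fun y => x < y ∧ y < p x ∧ y < p y) with hO
  set C := D.filter (fun y => x < y ∧ y ≤ p x ∧ p y < y) with hC
  have hb : p x ∈ C := by
    rw [hC, mem_filter]
    exact ⟨hD x hx, hxp, le_rfl, by rw [hpp x hx]; exact hxp⟩
  have h1 : C.card ≤ O.card := by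
    apply Finset.card_le_card_of_injOn p'
    · intro y hy
      rw [mem_coe, hC, mem_filter] at hy
      obtain ⟨hyD, hxy, hyb, hyc⟩ := hy
      have hyc' : p' y < y := by
        have h2 : ¬ y < p' y := fun h => by
          have := (hop y hyD).2 h
          omega
        have := hne' y hyD
        omega
      have hzD := hD' y hyD
      have hzz : p' (p' y) = y := hpp' y hyD
      have hz1 : x ≠ p' y := by
        intro h
        rw [← h] at hzz
        omega
      have hz2 : ¬ p' y < x := by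
        intro h
        exact nc' (p' y) hzD x hx ⟨h, by rw [hzz]; exact hxy, by rw [hzz]; omega⟩
      have hz3 : p' y < p (p' y) := (hop _ hzD).2 (by rw [hzz]; exact hyc')
      rw [mem_coe, hO, mem_filter]
      exact ⟨hzD, by omega, by omega, hz3⟩
    · intro y hy z hz h
      rw [mem_coe, hC, mem_filter] at hy hz
      rw [← hpp' y hy.1, ← hpp' z hz.1, h]
  have h2 : O.card ≤ (C.erase (p x)).card := by
    apply Finset.card_le_card_of_injOn p
    · intro y hy
      rw [mem_coe, hO, mem_filter] at hy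
      obtain ⟨hyD, hxy, hyb, hyo⟩ := hy
      have h3 : p y ≠ p x := by
        intro h
        have h4 := hpp y hyD
        rw [h, hpp x hx] at h4
        omega
      have h4 : ¬ p x < p y := fun h => nc x hx y hyD ⟨hxy, hyb, h⟩
      rw [mem_coe, mem_erase, hC, mem_filter]
      refine ⟨h3, hD y hyD, by omega, by omega, ?_⟩
      rw [hpp y hyD]
      exact hyo
    · intro y hy z hz h
      rw [mem_coe, hO, mem_filter] at hy hz
      rw [← hpp y hy.1, ← hpp z hz.1, h]
  rw [Finset.card_erase_of_mem hb] at h2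
  have h3 : 0 < C.card := Finset.card_pos.2 ⟨_, hb⟩
  omega

/-- Two non-crossing perfect matchings of a finite set of integers with the same opening points are equal. -/
private lemma match_eq (D : Finset ℕ) (p p' : ℕ → ℕ) (hD : ∀ x ∈ D, p x ∈ D) (hD' : ∀ x ∈ D, p' x ∈ D)
    (hpp : ∀ x ∈ D, p (p x) = x) (hpp' : ∀ x ∈ D, p' (p' x) = x) (hne : ∀ x ∈ D, p x ≠ x) (hne' : ∀ x ∈ D, p' x ≠ x)
    (nc : ∀ x ∈ D, ∀ y ∈ D, ¬ (x < y ∧ y < p x ∧ p x < p y))
    (nc' : ∀ x ∈ D, ∀ y ∈ D, ¬ (x < y ∧ y < p' x ∧ p' x < p' y))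
    (hop : ∀ x ∈ D, (x < p x ↔ x < p' x)) (x : ℕ) (hx : x ∈ D) : p x = p' x := by
  have key : ∀ x ∈ D, x < p x → p x = p' x := by
    intro x hx hxp
    have h1 := match_le D p p' hD hD' hpp hpp' hne' nc nc' hop x hx hxp
    have h2 := match_le D p' p hD' hD hpp' hpp hne nc' nc (fun x hx => (hop x hx).symm) x hx ((hop x hx).1 hxp)
    omega
  by_cases hxp : x < p x
  · exact key x hx hxp
  · have h1 := hne x hx
    have h2 : p x < p (p x) := by
      rw [hpp x hx]
      omega
    have h3 := key (p x) (hD x hx) h2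
    rw [hpp x hx] at h3
    have h4 := hpp' (p x) (hD x hx)
    rw [← h3] at h4
    exact h4.symm

/-- the heights which have an arc on the side `σ` -/
private def DD (n a b σ : ℕ) : Finset ℕ := (range (n + 1)).filter (fun x => ¬ (x = b ∧ n % 2 = σ) ∧ ¬ (x = a ∧ σ = 1))

private lemma fold_surj {n : ℕ} {H : ℕ → ℕ} (hF : Fold n H) (x : ℕ) (hx : x ≤ n) : ∃ i, i ≤ n ∧ H i = x := by
  have h1 : (range (n + 1)).image H = range (n + 1) := by
    apply Finset.eq_of_subset_of_card_le
    · intro y hy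
      obtain ⟨i, hi, rfl⟩ := mem_image.1 hy
      have := hF.le i (by have := mem_range.1 hi; omega)
      exact mem_range.2 (by omega)
    · rw [Finset.card_image_of_injOn]
      intro i hi j hj h
      have h1 := mem_range.1 (mem_coe.1 hi)
      have h2 := mem_range.1 (mem_coe.1 hj)
      exact hF.inj i j (by omega) (by omega) h
  have h2 : x ∈ (range (n + 1)).image H := by
    rw [h1]
    exact mem_range.2 (by omega)
  obtain ⟨i, hi, h⟩ := mem_image.1 h2
  exact ⟨i, by have := mem_range.1 hi; omega, h⟩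

private lemma exists_p {n : ℕ} {H : ℕ → ℕ} (hF : Fold n H) (σ : ℕ) (hσ : σ < 2) : ∃ p : ℕ → ℕ,
    (∀ x ∈ DD n (H 0) (H n) σ, p x ∈ DD n (H 0) (H n) σ) ∧ (∀ x ∈ DD n (H 0) (H n) σ, p (p x) = x) ∧
    (∀ x ∈ DD n (H 0) (H n) σ, p x ≠ x) ∧
    (∀ x ∈ DD n (H 0) (H n) σ, ∀ y ∈ DD n (H 0) (H n) σ, ¬ (x < y ∧ y < p x ∧ p x < p y)) ∧
    (∀ x ∈ DD n (H 0) (H n) σ, (x < p x ↔ Up n H σ x)) ∧
    (∀ i, i < n → i % 2 = σ → H i ∈ DD n (H 0) (H n) σ ∧ p (H i) = H (i + 1)) := by
  choose! g hg1 hg2 using fold_surj hF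
  have hgH : ∀ i, i ≤ n → g (H i) = i := by
    intro i hi
    exact hF.inj _ _ (hg1 _ (hF.le i hi)) hi (hg2 _ (hF.le i hi))
  -- the arc of `x`
  have arc : ∀ x ∈ DD n (H 0) (H n) σ, ∃ e, e < n ∧ e % 2 = σ ∧
      ((x = H e ∧ g x = e ∧ H (if g x % 2 = σ then g x + 1 else g x - 1) = H (e + 1)) ∨
       (x = H (e + 1) ∧ g x = e + 1 ∧ H (if g x % 2 = σ then g x + 1 else g x - 1) = H e)) := by
    intro x hx
    unfold DD at hx
    rw [mem_filter, mem_range] at hx
    obtain ⟨hxn, hx1, hx2⟩ := hx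
    have hx3 : x ≤ n := by omega
    have h1 := hg1 x hx3
    have h2 := hg2 x hx3
    by_cases h : g x % 2 = σ
    · refine ⟨g x, ?_, h, Or.inl ⟨h2.symm, rfl, by rw [if_pos h]⟩⟩
      rcases Nat.lt_or_ge (g x) n with h3 | h3
      · exact h3
      · exfalso
        have h4 : g x = n := le_antisymm h1 h3
        exact hx1 ⟨by rw [← h2, h4], by rw [← h4]; exact h⟩
    · have h3 : 0 < g x := by
        rcases Nat.eq_zero_or_pos (g x) with h3 | h3
        · exfalso
          rw [h3] at h h2
          exact hx2 ⟨h2.symm, by omega⟩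
        · exact h3
      refine ⟨g x - 1, by omega, by omega, Or.inr ⟨?_, by omega, by rw [if_neg h]⟩⟩
      rw [show g x - 1 + 1 = g x by omega]
      exact h2.symm
  have memDD : ∀ e, e < n → e % 2 = σ → H e ∈ DD n (H 0) (H n) σ ∧ H (e + 1) ∈ DD n (H 0) (H n) σ := by
    intro e he hes
    unfold DD
    constructor
    · rw [mem_filter, mem_range]
      refine ⟨by have := hF.le e (by omega); omega, ?_, ?_⟩
      · rintro ⟨h1, h2⟩
        have := hF.inj _ _ (by omega) le_rfl h1
        omega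
      · rintro ⟨h1, h2⟩
        have := hF.inj _ _ (by omega) (by omega) h1
        omega
    · rw [mem_filter, mem_range]
      refine ⟨by have := hF.le (e + 1) (by omega); omega, ?_, ?_⟩
      · rintro ⟨h1, h2⟩
        have := hF.inj _ _ (by omega) le_rfl h1
        omega
      · rintro ⟨h1, h2⟩
        have := hF.inj _ _ (by omega) (by omega) h1
        omega
  have pE : ∀ e, e < n → e % 2 = σ →
      H (if g (H e) % 2 = σ then g (H e) + 1 else g (H e) - 1) = H (e + 1) := by
    intro e he hes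
    rw [hgH e (by omega), if_pos hes]
  have pE' : ∀ e, e < n → e % 2 = σ →
      H (if g (H (e + 1)) % 2 = σ then g (H (e + 1)) + 1 else g (H (e + 1)) - 1) = H e := by
    intro e he hes
    rw [hgH (e + 1) (by omega), if_neg (by omega), Nat.add_sub_cancel]
  have hneq : ∀ e, e < n → H e ≠ H (e + 1) := by
    intro e he h
    have := hF.inj _ _ (by omega) (by omega) h
    omega
  refine ⟨fun x => H (if g x % 2 = σ then g x + 1 else g x - 1), ?_, ?_, ?_, ?_, ?_, ?_⟩
  · intro x hx
    obtain ⟨e, he, hes, h | h⟩ := arc x hx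
    · show H _ ∈ _
      rw [h.2.2]
      exact (memDD e he hes).2
    · show H _ ∈ _
      rw [h.2.2]
      exact (memDD e he hes).1
  · intro x hx
    obtain ⟨e, he, hes, h | h⟩ := arc x hx
    · show H (if g (H _) % 2 = σ then g (H _) + 1 else g (H _) - 1) = x
      rw [h.2.2, pE' e he hes]
      exact h.1.symm
    · show H (if g (H _) % 2 = σ then g (H _) + 1 else g (H _) - 1) = x
      rw [h.2.2, pE e he hes]
      exact h.1.symm
  · intro x hx
    obtain ⟨e, he, hes, h | h⟩ := arc x hx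
    · show H _ ≠ x
      rw [h.2.2, h.1]
      exact (hneq e he).symm
    · show H _ ≠ x
      rw [h.2.2, h.1]
      exact hneq e he
  · intro x hx y hy
    show ¬ (x < y ∧ y < H _ ∧ H _ < H _)
    obtain ⟨e, he, hes, h⟩ := arc x hx
    obtain ⟨f, hf, hfs, k⟩ := arc y hy
    rintro ⟨h1, h2, h3⟩
    apply hF.nc e f he hf (by omega)
    unfold lo hi
    rcases h with h | h <;> rcases k with k | k <;>
    · rw [h.2.2] at h2 h3
      rw [k.2.2] at h3
      obtain ⟨h4, -, -⟩ := h
      obtain ⟨k4, -, -⟩ := k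
      omega
  · intro x hx
    show x < H _ ↔ _
    obtain ⟨e, he, hes, h⟩ := arc x hx
    constructor
    · intro h1
      refine ⟨e, he, hes, ?_⟩
      unfold lo
      rcases h with h | h
      · rw [h.2.2] at h1
        rw [← h.1]
        omega
      · rw [h.2.2] at h1
        rw [← h.1]
        omega
    · rintro ⟨f, hf, hfs, hlo⟩
      unfold lo at hlo
      have h5 := hneq f hf
      rcases Nat.lt_or_ge (H f) (H (f + 1)) with h6 | h6
      · have h7 : H f = x := by omega
        rw [← h7, pE f hf hfs]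
        exact h6
      · have h7 : H (f + 1) = x := by omega
        rw [← h7, pE' f hf hfs]
        omega
  · intro i hi his
    exact ⟨(memDD i hi his).1, pE i hi his⟩

theorem t_IN : S_IN := by
  intro n H H' hF hF' h0 hn hup i
  induction i with
  | zero => intro _; exact h0
  | succ i ih =>
    intro hi
    have hi' : i < n := by omega
    have hHi := ih (by omega)
    obtain ⟨p, p1, p2, p3, p4, p5, p6⟩ := exists_p hF (i % 2) (by omega)
    obtain ⟨q, q1, q2, q3, q4, q5, q6⟩ := exists_p hF' (i % 2) (by omega)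
    rw [← h0, ← hn] at q1 q2 q3 q4 q5 q6
    obtain ⟨a1, a2⟩ := p6 i hi' rfl
    obtain ⟨b1, b2⟩ := q6 i hi' rfl
    rw [← a2, ← b2, ← hHi]
    refine match_eq _ p q p1 q1 p2 q2 p3 q3 p4 q4 (fun x hx => ?_) _ a1
    rw [p5 x hx, q5 x hx]
    refine hup _ _ (by omega) ?_
    unfold DD at hx
    rw [mem_filter, mem_range] at hx
    omega

end Pool.U397.SF
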