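import Pool.Agent.U397.SF.Spec

/-!
# Package ME: cutting a meander open gives a folded strip (injectively)
-/

set_option autoImplicit false

namespace Pool.U397.SF

namespace ME

variable {M : ℕ}

/-- the permutation used at step `k` -/
def sg (s t : Equiv.Perm (Fin M)) (k : ℕ) : Equiv.Perm (Fin M) := if k % 2 = 0 then s else t

/-- the alternating walk from `z` -/
def walk (s t : Equiv.Perm (Fin M)) (z : Fin M) : ℕ → Fin M
  | 0 => z
  | k + 1 => sg s t k (walk s t z k)

lemma sg_congr (s t : Equiv.Perm (Fin M)) {k l : ℕ} (h : k % 2 = l % 2) : sg s t k = sg s t l := by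
  unfold sg
  rw [h]

lemma sg_even (s t : Equiv.Perm (Fin M)) {k : ℕ} (h : k % 2 = 0) : sg s t k = s := if_pos h

lemma sg_odd (s t : Equiv.Perm (Fin M)) {k : ℕ} (h : k % 2 = 1) : sg s t k = t :=
  if_neg (by omega)

lemma walk_succ (s t : Equiv.Perm (Fin M)) (z : Fin M) (k : ℕ) :
    walk s t z (k + 1) = sg s t k (walk s t z k) := rfl

section
variable {s t : Equiv.Perm (Fin M)} (hs : ∀ i, s (s i) = i ∧ s i ≠ i)
  (ht : ∀ i, t (t i) = i ∧ t i ≠ i) (z : Fin M)
include hs ht

lemma sg_sg (k : ℕ) (y : Fin M) : sg s t k (sg s t k y) = y := by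
  unfold sg
  split
  · exact (hs y).1
  · exact (ht y).1

lemma sg_ne (k : ℕ) (y : Fin M) : sg s t k y ≠ y := by
  unfold sg
  split
  · exact (hs y).2
  · exact (ht y).2

lemma walk_back (k : ℕ) : sg s t k (walk s t z (k + 1)) = walk s t z k := by
  rw [walk_succ, sg_sg hs ht]

lemma t_back {l : ℕ} (h : l % 2 = 1) : t (walk s t z (l + 1)) = walk s t z l := by
  have e := walk_back hs ht z l
  rwa [sg_odd s t h] at e

lemma s_back {l : ℕ} (h : l % 2 = 0) : s (walk s t z (l + 1)) = walk s t z l := by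
  have e := walk_back hs ht z l
  rwa [sg_even s t h] at e

lemma odd_ne (r : ℕ) : ∀ i, walk s t z i ≠ walk s t z (i + (2 * r + 1)) := by
  induction r with
  | zero =>
    intro i h
    have h' : walk s t z i = walk s t z (i + 1) := h
    rw [walk_succ] at h'
    exact sg_ne hs ht i _ h'.symm
  | succ r ih =>
    intro i h
    apply ih (i + 1)
    rw [walk_succ, h]
    have e : i + (2 * (r + 1) + 1) = (i + 1 + (2 * r + 1)) + 1 := by ring
    rw [e, sg_congr s t (show i % 2 = (i + 1 + (2 * r + 1)) % 2 by omega), walk_back hs ht]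

lemma per_zero (r : ℕ) : ∀ i, walk s t z i = walk s t z (i + 2 * r) →
    walk s t z 0 = walk s t z (2 * r) := by
  intro i
  induction i with
  | zero =>
    intro h
    rwa [Nat.zero_add] at h
  | succ i ih =>
    intro h
    apply ih
    have h1 := walk_back hs ht z i
    rw [h, sg_congr s t (show i % 2 = (i + 2 * r) % 2 by omega)] at h1
    have e : i + 1 + 2 * r = (i + 2 * r) + 1 := by ring
    rw [e, walk_back hs ht] at h1
    exact h1.symm

lemma closed (r : ℕ) (hr : 0 < r) (h0 : walk s t z 0 = walk s t z (2 * r)) (k : ℕ)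
    (hk : k < 2 * r) :
    (∃ l < 2 * r, s (walk s t z k) = walk s t z l) ∧
    (∃ l < 2 * r, t (walk s t z k) = walk s t z l) := by
  have hev : ∀ k < 2 * r, k % 2 = 0 → 0 < k → t (walk s t z k) = walk s t z (k - 1) := by
    intro k hk h1 h2
    obtain ⟨l, rfl⟩ : ∃ l, k = l + 1 := ⟨k - 1, by omega⟩
    exact t_back hs ht z (by omega)
  rcases Nat.mod_two_eq_zero_or_one k with h1 | h1
  · refine ⟨⟨k + 1, by omega, ?_⟩, ?_⟩
    · rw [walk_succ, sg_even s t h1]
    · rcases Nat.eq_zero_or_pos k with h2 | h2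
      · subst h2
        refine ⟨2 * r - 1, by omega, ?_⟩
        rw [h0]
        obtain ⟨l, hl⟩ : ∃ l, 2 * r = l + 1 := ⟨2 * r - 1, by omega⟩
        rw [hl]
        exact t_back hs ht z (by omega)
      · exact ⟨k - 1, by omega, hev k hk h1 h2⟩
  · refine ⟨⟨k - 1, by omega, ?_⟩, ?_⟩
    · obtain ⟨l, rfl⟩ : ∃ l, k = l + 1 := ⟨k - 1, by omega⟩
      have e := walk_back hs ht z l
      rw [sg_even s t (show l % 2 = 0 by omega)] at e
      exact e
    · by_cases h2 : k + 1 < 2 * r
      · exact ⟨k + 1, h2, by rw [walk_succ, sg_odd s t h1]⟩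
      · refine ⟨0, by omega, ?_⟩
        rw [h0]
        have e : 2 * r = k + 1 := by omega
        rw [e, walk_succ, sg_odd s t h1]

lemma all_mem (hst : ∀ i j, ∃ g ∈ Subgroup.closure ({s, t} : Set (Equiv.Perm (Fin M))), g i = j)
    (r : ℕ) (hr : 0 < r) (h0 : walk s t z 0 = walk s t z (2 * r)) (y : Fin M) :
    ∃ l < 2 * r, y = walk s t z l := by
  have hcl : ∀ g ∈ Subgroup.closure ({s, t} : Set (Equiv.Perm (Fin M))), ∀ k < 2 * r,
      (∃ l < 2 * r, g (walk s t z k) = walk s t z l) ∧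
      (∃ l < 2 * r, g⁻¹ (walk s t z k) = walk s t z l) := by
    intro g hg
    induction hg using Subgroup.closure_induction with
    | mem x hx =>
      intro k hk
      have h1 := closed hs ht z r hr h0 k hk
      rcases hx with rfl | hx
      · refine ⟨h1.1, ?_⟩
        have e : x⁻¹ = x := by
          ext i
          rw [Equiv.Perm.inv_eq_iff_eq.2]
          exact (hs i).1.symm
        rw [e]
        exact h1.1
      · rw [Set.mem_singleton_iff] at hx
        subst hx
        refine ⟨h1.2, ?_⟩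
        have e : x⁻¹ = x := by
          ext i
          rw [Equiv.Perm.inv_eq_iff_eq.2]
          exact (ht i).1.symm
        rw [e]
        exact h1.2
    | one =>
      intro k hk
      exact ⟨⟨k, hk, rfl⟩, ⟨k, hk, by simp⟩⟩
    | mul a b _ _ ha hb =>
      intro k hk
      constructor
      · obtain ⟨l, hl, e⟩ := (hb k hk).1
        obtain ⟨l', hl', e'⟩ := (ha l hl).1
        exact ⟨l', hl', by rw [Equiv.Perm.mul_apply, e, e']⟩
      · obtain ⟨l, hl, e⟩ := (ha k hk).2
        obtain ⟨l', hl', e'⟩ := (hb l hl).2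
        exact ⟨l', hl', by rw [mul_inv_rev, Equiv.Perm.mul_apply, e, e']⟩
    | inv a _ ha =>
      intro k hk
      refine ⟨(ha k hk).2, ?_⟩
      rw [inv_inv]
      exact (ha k hk).1
  obtain ⟨g, hg, e⟩ := hst (walk s t z 0) y
  obtain ⟨l, hl, e'⟩ := (hcl g hg 0 (by omega)).1
  exact ⟨l, hl, by rw [← e, e']⟩

lemma walk_inj (hst : ∀ i j, ∃ g ∈ Subgroup.closure ({s, t} : Set (Equiv.Perm (Fin M))), g i = j)
    {i j : ℕ} (hij : i < j) (hj : j < M) : walk s t z i ≠ walk s t z j := by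
  intro h
  rcases Nat.mod_two_eq_zero_or_one (j - i) with h1 | h1
  · obtain ⟨r, hr⟩ : ∃ r, j - i = 2 * r := ⟨(j - i) / 2, by omega⟩
    have hr0 : 0 < r := by omega
    have e : j = i + 2 * r := by omega
    rw [e] at h
    have h0 := per_zero hs ht z r i h
    have hall := all_mem hs ht z hst r hr0 h0
    have hc : Fintype.card (Fin M) ≤ (Finset.range (2 * r)).card := by
      have hsub : (Finset.univ : Finset (Fin M)) ⊆
          (Finset.range (2 * r)).image (walk s t z) := by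
        intro y _
        obtain ⟨l, hl, e⟩ := hall y
        exact Finset.mem_image.2 ⟨l, Finset.mem_range.2 hl, e.symm⟩
      exact (Finset.card_le_card hsub).trans Finset.card_image_le
    rw [Fintype.card_fin, Finset.card_range] at hc
    omega
  · obtain ⟨r, hr⟩ : ∃ r, j - i = 2 * r + 1 := ⟨(j - i) / 2, by omega⟩
    have e : j = i + (2 * r + 1) := by omega
    rw [e] at h
    exact odd_ne hs ht z r i h

end

/-- arcs of a non-crossing involution do not interleave -/
lemma nc_arcs {σ : Equiv.Perm (Fin M)} (h1 : ∀ i, σ (σ i) = i ∧ σ i ≠ i)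
    (h2 : ∀ i j, ¬ (i < j ∧ j < σ i ∧ σ i < σ j)) (a c : Fin M) :
    ¬ (min a (σ a) < min c (σ c) ∧ min c (σ c) < max a (σ a) ∧ max a (σ a) < max c (σ c)) := by
  rcases le_total a (σ a) with ha | ha <;> rcases le_total c (σ c) with hc | hc
  · rw [min_eq_left ha, max_eq_right ha, min_eq_left hc, max_eq_right hc]
    exact h2 a c
  · rw [min_eq_left ha, max_eq_right ha, min_eq_right hc, max_eq_left hc]
    have := h2 a (σ c)
    rwa [(h1 c).1] at this
  · rw [min_eq_right ha, max_eq_left ha, min_eq_left hc, max_eq_right hc]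
    have := h2 (σ a) c
    rwa [(h1 a).1] at this
  · rw [min_eq_right ha, max_eq_left ha, min_eq_right hc, max_eq_left hc]
    have := h2 (σ a) (σ c)
    rwa [(h1 a).1, (h1 c).1] at this

/-- the set of meanders on `M` points -/
def Mea (M : ℕ) : Set (Equiv.Perm (Fin M) × Equiv.Perm (Fin M)) :=
  {p | (∀ i, p.1 (p.1 i) = i ∧ p.1 i ≠ i) ∧
       (∀ i, p.2 (p.2 i) = i ∧ p.2 i ≠ i) ∧
       (∀ i j, ¬ (i < j ∧ j < p.1 i ∧ p.1 i < p.1 j)) ∧
       (∀ i j, ¬ (i < j ∧ j < p.2 i ∧ p.2 i < p.2 j)) ∧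
       (∀ i j, ∃ g ∈ Subgroup.closure ({p.1, p.2} : Set (Equiv.Perm (Fin M))), g i = j)}

lemma fn_inj {n : ℕ} (p : Mea (n + 1)) :
    Function.Injective fun k : Fin (n + 1) => walk p.1.1 p.1.2 (0 : Fin (n + 1)) k := by
  obtain ⟨hs, ht, -, -, hst⟩ := p.2
  intro i j h
  by_contra hne
  rcases lt_or_gt_of_ne hne with h1 | h1
  · exact walk_inj hs ht 0 hst h1 j.2 h
  · exact walk_inj hs ht 0 hst h1 i.2 h.symm

/-- the folded strip of a meander -/
noncomputable def fold {n : ℕ} (p : Mea (n + 1)) : Equiv.Perm (Fin (n + 1)) :=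
  Equiv.ofBijective _ (Finite.injective_iff_bijective.1 (fn_inj p))

lemma fold_apply {n : ℕ} (p : Mea (n + 1)) (k : Fin (n + 1)) :
    fold p k = walk p.1.1 p.1.2 0 k := rfl

lemma fold_nonPen {n : ℕ} (p : Mea (n + 1)) : NonPen n (fold p) := by
  obtain ⟨hs, ht, hsn, htn, hst⟩ := p.2
  intro j k hjk
  simp only [fold_apply, Fin.val_castSucc, Fin.val_succ, walk_succ]
  rcases Nat.mod_two_eq_zero_or_one (j : ℕ) with h1 | h1
  · rw [sg_even _ _ h1, sg_even _ _ (hjk ▸ h1)]
    exact nc_arcs hs hsn _ _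
  · rw [sg_odd _ _ h1, sg_odd _ _ (hjk ▸ h1)]
    exact nc_arcs ht htn _ _

/-- the closing arc -/
lemma closing {n : ℕ} (hn : n % 2 = 1) (p : Mea (n + 1)) :
    p.1.2 (walk p.1.1 p.1.2 0 0) = walk p.1.1 p.1.2 0 n := by
  obtain ⟨hs, ht, -, -, hst⟩ := p.2
  obtain ⟨k, hk⟩ := (fold p).surjective (p.1.2 (walk p.1.1 p.1.2 0 0))
  rw [fold_apply] at hk
  have hk' : p.1.2 (walk p.1.1 p.1.2 0 (k : ℕ)) = walk p.1.1 p.1.2 0 0 := by
    rw [hk]
    exact (ht _).1
  by_cases h0 : (k : ℕ) = 0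
  · rw [h0] at hk
    exact absurd hk.symm (ht _).2
  by_cases hkn : (k : ℕ) = n
  · rw [← hk, hkn]
  exfalso
  have hklt : (k : ℕ) < n := by omega
  rcases Nat.mod_two_eq_zero_or_one (k : ℕ) with h1 | h1
  · obtain ⟨l, hl⟩ : ∃ l, (k : ℕ) = l + 1 := ⟨k - 1, by omega⟩
    rw [hl, t_back hs ht 0 (by omega)] at hk'
    exact walk_inj hs ht 0 hst (show 0 < l by omega) (by omega) hk'.symm
  · have e := walk_succ p.1.1 p.1.2 (0 : Fin (n + 1)) k
    rw [sg_odd _ _ h1, hk'] at e
    exact walk_inj hs ht 0 hst (show 0 < (k : ℕ) + 1 by omega) (by omega) e.symm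

lemma fold_injective {n : ℕ} (hn : n % 2 = 1) :
    Function.Injective (fold : Mea (n + 1) → Equiv.Perm (Fin (n + 1))) := by
  intro p q h
  have hw : ∀ k, k ≤ n → walk p.1.1 p.1.2 0 k = walk q.1.1 q.1.2 (0 : Fin (n + 1)) k := by
    intro k hk
    have := congrArg (fun e : Equiv.Perm (Fin (n + 1)) => e ⟨k, by omega⟩) h
    simpa [fold_apply] using this
  obtain ⟨hs, ht, -, -, hst⟩ := p.2
  obtain ⟨hs', ht', -, -, hst'⟩ := q.2
  have e1 : p.1.1 = q.1.1 := by
    ext y
    obtain ⟨k, hk⟩ := (fold p).surjective y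
    rw [fold_apply] at hk
    have hkn : (k : ℕ) ≤ n := by omega
    rw [← hk]
    conv_rhs => rw [hw k hkn]
    rcases Nat.mod_two_eq_zero_or_one (k : ℕ) with h1 | h1
    · have h2 := hw (k + 1) (by omega)
      rw [walk_succ, walk_succ, sg_even _ _ h1, sg_even _ _ h1] at h2
      rw [h2]
    · obtain ⟨l, hl⟩ : ∃ l, (k : ℕ) = l + 1 := ⟨k - 1, by omega⟩
      have h2 := walk_back hs ht (0 : Fin (n + 1)) l
      have h3 := walk_back hs' ht' (0 : Fin (n + 1)) l
      rw [sg_even _ _ (show l % 2 = 0 by omega)] at h2 h3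
      rw [hl, h2, h3, hw l (by omega)]
  have e2 : p.1.2 = q.1.2 := by
    ext y
    obtain ⟨k, hk⟩ := (fold p).surjective y
    rw [fold_apply] at hk
    have hkn : (k : ℕ) ≤ n := by omega
    rw [← hk]
    conv_rhs => rw [hw k hkn]
    rcases Nat.mod_two_eq_zero_or_one (k : ℕ) with h1 | h1
    · by_cases h0 : (k : ℕ) = 0
      · rw [h0, closing hn p, closing hn q, hw n le_rfl]
      · obtain ⟨l, hl⟩ : ∃ l, (k : ℕ) = l + 1 := ⟨k - 1, by omega⟩
        have h2 := walk_back hs ht (0 : Fin (n + 1)) l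
        have h3 := walk_back hs' ht' (0 : Fin (n + 1)) l
        rw [sg_odd _ _ (show l % 2 = 1 by omega)] at h2 h3
        rw [hl, h2, h3, hw l (by omega)]
    · by_cases hkn' : (k : ℕ) = n
      · rw [hkn', ← closing hn p, ← closing hn q, (ht _).1, (ht' _).1, hw 0 (by omega)]
      · have h2 := hw (k + 1) (by omega)
        rw [walk_succ, walk_succ, sg_odd _ _ h1, sg_odd _ _ h1] at h2
        rw [h2]
  exact Subtype.ext (Prod.ext e1 e2)

lemma main (M n : ℕ) (hM : M = n + 1) (hn : n % 2 = 1) : (Mea M).ncard ≤ foldings n := by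
  subst hM
  rw [← Nat.card_coe_set_eq]
  unfold foldings
  refine Nat.card_le_card_of_injective
    (fun p : Mea (n + 1) => (⟨fold p, fold_nonPen p⟩ : {h // NonPen n h})) ?_
  intro p q h
  exact fold_injective hn (congrArg Subtype.val h)

end ME

theorem t_ME : S_ME := fun n => ME.main (2 * (n + 1)) (2 * n + 1) (by ring) (by omega)

end Pool.U397.SF
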