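import Pool.Agent.U397.SF.Spec

/-!
# Package SM of project SF (helper448): semantics of one step of the two-stack sweep
-/

set_option autoImplicit false

namespace Pool.U397.SF

namespace PkgSM

/-- arc `e` is adjacent to the layer `i` -/
def Adj (i e : ℕ) : Prop := e = i ∨ e + 1 = i

theorem lo_cases (H : ℕ → ℕ) (e : ℕ) :
    (lo H e = H e ∧ hi H e = H (e + 1)) ∨ (lo H e = H (e + 1) ∧ hi H e = H e) := by
  unfold lo hi
  rcases le_total (H e) (H (e + 1)) with h | h
  · left; exact ⟨min_eq_left h, max_eq_right h⟩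
  · right; exact ⟨min_eq_right h, max_eq_left h⟩

theorem lo_lt_hi {n : ℕ} {H : ℕ → ℕ} (hF : Fold n H) {e : ℕ} (he : e < n) : lo H e < hi H e := by
  have hne : H e ≠ H (e + 1) := fun h => by
    have := hF.inj e (e + 1) (by omega) (by omega) h
    omega
  unfold lo hi
  omega

/-- arcs of the same side not adjacent to `i` have no end at the height of `i` -/
theorem ne_height {n : ℕ} {H : ℕ → ℕ} {i : ℕ} (hF : Fold n H) (hin : i ≤ n) {e g : ℕ}
    (hg : g < n) (hp : g % 2 = e % 2) (hne : g ≠ e) (ha : Adj i e) :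
    lo H g ≠ H i ∧ hi H g ≠ H i := by
  have h1 : H g ≠ H i := fun h => by
    have := hF.inj g i (by omega) hin h
    unfold Adj at ha; omega
  have h2 : H (g + 1) ≠ H i := fun h => by
    have := hF.inj (g + 1) i (by omega) hin h
    unfold Adj at ha; omega
  rcases lo_cases H g with ⟨a, b⟩ | ⟨a, b⟩ <;> rw [a, b]
  · exact ⟨h1, h2⟩
  · exact ⟨h2, h1⟩

/-- two arcs of the same side have different lower ends -/
theorem lo_ne {n : ℕ} {H : ℕ → ℕ} (hF : Fold n H) {e g : ℕ} (he : e < n)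
    (hg : g < n) (hp : g % 2 = e % 2) (hne : g ≠ e) : lo H g ≠ lo H e := by
  intro h
  rcases lo_cases H e with ⟨a, b⟩ | ⟨a, b⟩
  · exact (ne_height hF (i := e) (by omega) hg hp hne (Or.inl rfl)).1 (h.trans a)
  · exact (ne_height hF (i := e + 1) (by omega) hg hp hne (Or.inr rfl)).1 (h.trans a)

theorem up_iff {n : ℕ} {H : ℕ → ℕ} {i : ℕ} (hF : Fold n H) (hin : i ≤ n) {e : ℕ}
    (he : e < n) (ha : Adj i e) : Up n H (e % 2) (H i) ↔ lo H e = H i := by
  constructor
  · rintro ⟨g, hg, hp, hl⟩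
    by_cases hne : g = e
    · subst hne; exact hl
    · exact absurd hl (ne_height hF hin hg hp hne ha).1
  · intro h
    exact ⟨e, he, rfl, h⟩

theorem adj_cases {H : ℕ → ℕ} {i : ℕ} {e : ℕ} (ha : Adj i e) :
    lo H e = H i ∨ hi H e = H i := by
  rcases ha with h | h
  · subst h
    rcases lo_cases H e with ⟨a, b⟩ | ⟨a, b⟩
    · exact Or.inl a
    · exact Or.inr b
  · subst h
    rcases lo_cases H e with ⟨a, b⟩ | ⟨a, b⟩
    · exact Or.inr b
    · exact Or.inl a

/-- an arc not adjacent to `i` on this side is open at `t` iff open at `t+1` -/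
theorem opn_succ {n : ℕ} {H : ℕ → ℕ} {i : ℕ} (hF : Fold n H) (hin : i ≤ n) {e g : ℕ}
    (hg : g < n) (hp : g % 2 = e % 2) (hne : g ≠ e) (ha : Adj i e) :
    Opn H (H i + 1) g ↔ Opn H (H i) g := by
  have h := ne_height hF hin hg hp hne ha
  unfold Opn
  omega

/-- push: the new arc -/
theorem push_new {n : ℕ} {H : ℕ → ℕ} {i : ℕ} (hF : Fold n H) {e : ℕ}
    (he : e < n) (hl : lo H e = H i) : Opn H (H i + 1) e ∧ rk n H (H i + 1) e = 0 := by
  have h := lo_lt_hi hF he
  refine ⟨⟨by omega, by omega⟩, ?_⟩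
  unfold rk
  rw [Finset.card_eq_zero, Finset.filter_eq_empty_iff]
  rintro g _ ⟨_, ho, h2⟩
  have := ho.1
  omega

/-- push: the old arcs -/
theorem push_old {n : ℕ} {H : ℕ → ℕ} {i : ℕ} (hF : Fold n H) (hin : i ≤ n) {e f : ℕ}
    (he : e < n) (ha : Adj i e) (hl : lo H e = H i)
    (hf : f < n) (hp : f % 2 = e % 2) (ho : Opn H (H i) f) :
    f ≠ e ∧ Opn H (H i + 1) f ∧ rk n H (H i + 1) f = rk n H (H i) f + 1 := by
  have hne : f ≠ e := by
    rintro rfl
    have := ho.1
    omega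
  refine ⟨hne, (opn_succ hF hin hf hp hne ha).2 ho, ?_⟩
  have hnot : e ∉ (Finset.range n).filter (fun g => g % 2 = f % 2 ∧ Opn H (H i) g ∧ lo H f < lo H g) := by
    simp only [Finset.mem_filter, not_and]
    intro _ _ h3
    have := h3.1
    omega
  unfold rk
  rw [← Finset.card_insert_of_notMem hnot]
  congr 1
  ext g
  simp only [Finset.mem_filter, Finset.mem_insert, Finset.mem_range]
  by_cases hge : g = e
  · subst hge
    constructor
    · intro _; exact Or.inl rfl
    · intro _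
      exact ⟨he, hp.symm, (push_new hF he hl).1, by have := ho.1; omega⟩
  · constructor
    · rintro ⟨h1, h2, h3, h4⟩
      exact Or.inr ⟨h1, h2, (opn_succ hF hin h1 (h2.trans hp) hge ha).1 h3, h4⟩
    · rintro (h | ⟨h1, h2, h3, h4⟩)
      · exact absurd h hge
      · exact ⟨h1, h2, (opn_succ hF hin h1 (h2.trans hp) hge ha).2 h3, h4⟩

/-- pop: the closing arc -/
theorem pop_arc {n : ℕ} {H : ℕ → ℕ} {i : ℕ} (hF : Fold n H) (hin : i ≤ n) {e : ℕ}
    (he : e < n) (ha : Adj i e) (hl : hi H e = H i) :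
    Opn H (H i) e ∧ rk n H (H i) e = 0 := by
  have h := lo_lt_hi hF he
  refine ⟨⟨by omega, by omega⟩, ?_⟩
  unfold rk
  rw [Finset.card_eq_zero, Finset.filter_eq_empty_iff]
  rintro g hg ⟨hp, ho, h2⟩
  have hg' : g < n := Finset.mem_range.1 hg
  have hne : g ≠ e := by rintro rfl; omega
  have h3 := ne_height hF hin hg' hp hne ha
  have h4 := ho.1
  have h5 := ho.2
  exact hF.nc e g he hg' hp.symm ⟨h2, by omega, by omega⟩

/-- pop: the other arcs -/
theorem pop_old {n : ℕ} {H : ℕ → ℕ} {i : ℕ} (hF : Fold n H) (hin : i ≤ n) {e f : ℕ}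
    (he : e < n) (ha : Adj i e) (hl : hi H e = H i)
    (hf : f < n) (hp : f % 2 = e % 2) (hne : f ≠ e) (ho : Opn H (H i) f) :
    Opn H (H i + 1) f ∧ rk n H (H i) f = rk n H (H i + 1) f + 1 := by
  refine ⟨(opn_succ hF hin hf hp hne ha).2 ho, ?_⟩
  have hnot : e ∉ (Finset.range n).filter
      (fun g => g % 2 = f % 2 ∧ Opn H (H i + 1) g ∧ lo H f < lo H g) := by
    simp only [Finset.mem_filter, not_and]
    intro _ _ h3
    have := h3.2
    omega
  unfold rk
  rw [← Finset.card_insert_of_notMem hnot]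
  congr 1
  ext g
  simp only [Finset.mem_filter, Finset.mem_insert, Finset.mem_range]
  by_cases hge : g = e
  · subst hge
    constructor
    · intro _; exact Or.inl rfl
    · intro _
      refine ⟨he, hp.symm, (pop_arc hF hin he ha hl).1, ?_⟩
      by_contra hcon
      have h1 := lo_ne hF he hf hp hne
      have h3 := ne_height hF hin hf hp hne ha
      have h4 := ho.1
      have h5 := ho.2
      exact hF.nc g f he hf hp.symm ⟨by omega, by omega, by omega⟩
  · constructor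
    · rintro ⟨h1, h2, h3, h4⟩
      exact Or.inr ⟨h1, h2, (opn_succ hF hin h1 (h2.trans hp) hge ha).2 h3, h4⟩
    · rintro (h | ⟨h1, h2, h3, h4⟩)
      · exact absurd h hge
      · exact ⟨h1, h2, (opn_succ hF hin h1 (h2.trans hp) hge ha).1 h3, h4⟩

theorem mt_mono {H : ℕ → ℕ} {t e f : ℕ} (h : Mt H t e f) : Mt H (t + 1) e f :=
  fun j h1 h2 => (h j h1 h2).trans (Nat.lt_succ_self t)

theorem mt_symm {H : ℕ → ℕ} {t e f : ℕ} (h : Mt H t e f) : Mt H t f e := by
  intro j h1 h2
  exact h j (by rwa [min_comm]) (by rwa [max_comm])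

/-- the two arcs at `i` are joined after step `H i` -/
theorem mt_new {H : ℕ → ℕ} {i p q : ℕ} (hp : Adj i p) (hq : Adj i q) : Mt H (H i + 1) p q := by
  intro j h1 h2
  have : j = i := by unfold Adj at hp hq; omega
  subst this; omega

/-- not joined before -/
theorem not_mt {H : ℕ → ℕ} {i p q : ℕ} (hp : Adj i p) (hq : Adj i q) (hne : p ≠ q) :
    ¬ Mt H (H i) p q := by
  intro h
  have := h i (by unfold Adj at hp hq; omega) (by unfold Adj at hp hq; omega)
  omega

/-- `x` joined to `p` gets joined to `q` -/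
theorem mt_move {H : ℕ → ℕ} {i p q x : ℕ} (hp : Adj i p) (hq : Adj i q) (hne : p ≠ q)
    (h : Mt H (H i) x p) : Mt H (H i + 1) x q := by
  have hni : ¬ (min x p < i ∧ i ≤ max x p) := fun hh => by
    have := h i hh.1 hh.2
    omega
  intro j h1 h2
  by_cases hj : j = i
  · subst hj; omega
  · have := h j (by unfold Adj at hp hq; omega) (by unfold Adj at hp hq; omega)
    omega

/-- `x` joined to `p` and `y` joined to `q` get joined -/
theorem mt_join {H : ℕ → ℕ} {i p q x y : ℕ} (hp : Adj i p) (hq : Adj i q) (hne : p ≠ q)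
    (hx : x ≠ p) (hy : y ≠ q)
    (h : Mt H (H i) x p) (h' : Mt H (H i) y q) : Mt H (H i + 1) x y ∧ x ≠ y := by
  have hni : ¬ (min x p < i ∧ i ≤ max x p) := fun hh => by
    have := h i hh.1 hh.2
    omega
  have hni' : ¬ (min y q < i ∧ i ≤ max y q) := fun hh => by
    have := h' i hh.1 hh.2
    omega
  refine ⟨?_, ?_⟩
  · intro j h1 h2
    by_cases hj : j = i
    · subst hj; omega
    · by_cases hc : min x p < j ∧ j ≤ max x p
      · have := h j hc.1 hc.2; omega
      · have := h' j (by unfold Adj at hp hq; omega) (by unfold Adj at hp hq; omega)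
        omega
  · unfold Adj at hp hq; omega

theorem hi_of_not_up {n : ℕ} {H : ℕ → ℕ} {i : ℕ} (hF : Fold n H) (hin : i ≤ n) {e : ℕ}
    (he : e < n) (ha : Adj i e) (h : ¬ Up n H (e % 2) (H i)) : hi H e = H i := by
  rcases adj_cases (H := H) ha with h' | h'
  · exact absurd ((up_iff hF hin he ha).2 h') h
  · exact h'

/-- one arc `p` closes, the arc `q` opens; `R` is the relation between old and new slots -/
theorem one_one {n : ℕ} {H : ℕ → ℕ} {i p q : ℕ} (hp : Adj i p) (hq : Adj i q) (hne : p ≠ q)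
    (hl : lo H q = H i) (R : ℕ → ℕ → Prop)
    (hold : ∀ c d f, R c d → At n H (H i) c f → f ≠ p → At n H (H i + 1) d f)
    (hnew : ∀ c d, R c d → At n H (H i) c p → At n H (H i + 1) d q)
    {c c' d d' : ℕ} (h : R c d) (h' : R c' d') (hP : PP n H (H i) c c') :
    PP n H (H i + 1) d d' := by
  obtain ⟨e, f, hef, he, hf, hm⟩ := hP
  have hq1 : ∀ g, Opn H (H i) g → g ≠ q := by
    rintro g hg rfl
    have := hg.1
    omega
  by_cases h1 : e = p
  · subst h1
    refine ⟨q, f, (hq1 f hf.2.1).symm, hnew c d h he, hold c' d' f h' hf (Ne.symm hef), ?_⟩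
    exact mt_symm (mt_move hp hq hne (mt_symm hm))
  · by_cases h2 : f = p
    · subst h2
      exact ⟨e, q, hq1 e he.2.1, hold c d e h he h1, hnew c' d' h' hf, mt_move hp hq hne hm⟩
    · exact ⟨e, f, hef, hold c d e h he h1, hold c' d' f h' hf h2, mt_mono hm⟩

theorem core {n : ℕ} {H : ℕ → ℕ} {i eR eL : ℕ} (hF : Fold n H) (hin : i ≤ n)
    (hR : eR < n) (hL : eL < n) (aR : Adj i eR) (aL : Adj i eL)
    (pR : eR % 2 = 0) (pL : eL % 2 = 1) :
  (¬ Up n H 0 (H i) → Up n H 1 (H i) →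
    ∀ c c', PP n H (H i) c c' → PP n H (H i + 1) (c + 1) (c' + 1)) ∧
  (Up n H 0 (H i) → ¬ Up n H 1 (H i) →
    ∀ c c', PP n H (H i) (c + 1) (c' + 1) → PP n H (H i + 1) c c') ∧
  (Up n H 0 (H i) → Up n H 1 (H i) →
    PP n H (H i + 1) 7 8 ∧
    ∀ c c', c ≠ 0 → c' ≠ 0 → PP n H (H i) c c' → PP n H (H i + 1) (foo c) (foo c')) ∧
  (¬ Up n H 0 (H i) → ¬ Up n H 1 (H i) →
    ¬ PP n H (H i) 7 8 ∧
    (∀ c c', c ≠ 7 → c ≠ 8 → c' ≠ 7 → c' ≠ 8 →
      PP n H (H i) c c' → PP n H (H i + 1) (fcc c) (fcc c')) ∧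
    (∀ x y, x ≠ 7 → x ≠ 8 → y ≠ 7 → y ≠ 8 →
      PP n H (H i) x 7 → PP n H (H i) y 8 → PP n H (H i + 1) (fcc x) (fcc y))) := by
  have hne : eR ≠ eL := by rintro rfl; omega
  have uR : ∀ {e : ℕ}, e % 2 = 0 → e % 2 = eR % 2 := fun h => by omega
  have uL : ∀ {e : ℕ}, e % 2 = 1 → e % 2 = eL % 2 := fun h => by omega
  have upR := up_iff hF hin hR aR
  have upL := up_iff hF hin hL aL
  rw [pR] at upR
  rw [pL] at upL
  have nupR : ¬ Up n H 0 (H i) → hi H eR = H i := fun h =>
    hi_of_not_up hF hin hR aR (by rwa [pR])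
  have nupL : ¬ Up n H 1 (H i) → hi H eL = H i := fun h =>
    hi_of_not_up hF hin hL aL (by rwa [pL])
  refine ⟨?_, ?_, ?_, ?_⟩
  · -- close R, open L
    intro h0 h1 c c' hP
    have hc := nupR h0
    have ho := upL.1 h1
    refine one_one aR aL hne ho (fun c d => d = c + 1) ?_ ?_ rfl rfl hP
    · rintro c d f rfl ⟨hf, hof, hs⟩ hfe
      rcases hs with ⟨hp, hs⟩ | ⟨hp, hs⟩
      · obtain ⟨g1, g2⟩ := pop_old hF hin hR aR hc hf (uR hp) hfe hof
        exact ⟨hf, g1, Or.inl ⟨hp, by omega⟩⟩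
      · obtain ⟨_, g1, g2⟩ := push_old hF hin hL aL ho hf (uL hp) hof
        exact ⟨hf, g1, Or.inr ⟨hp, by omega⟩⟩
    · rintro c d rfl ⟨_, _, hs⟩
      have h2 := (pop_arc hF hin hR aR hc).2
      have h3 := push_new hF hL ho
      exact ⟨hL, h3.1, Or.inr ⟨pL, by omega⟩⟩
  · -- open R, close L
    intro h0 h1 c c' hP
    have ho := upR.1 h0
    have hc := nupL h1
    refine one_one aL aR hne.symm ho (fun c d => c = d + 1) ?_ ?_ rfl rfl hP
    · rintro c d f rfl ⟨hf, hof, hs⟩ hfe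
      rcases hs with ⟨hp, hs⟩ | ⟨hp, hs⟩
      · obtain ⟨_, g1, g2⟩ := push_old hF hin hR aR ho hf (uR hp) hof
        exact ⟨hf, g1, Or.inl ⟨hp, by omega⟩⟩
      · obtain ⟨g1, g2⟩ := pop_old hF hin hL aL hc hf (uL hp) hfe hof
        exact ⟨hf, g1, Or.inr ⟨hp, by omega⟩⟩
    · rintro c d rfl ⟨_, _, hs⟩
      have h2 := (pop_arc hF hin hL aL hc).2
      have h3 := push_new hF hR ho
      exact ⟨hR, h3.1, Or.inl ⟨pR, by omega⟩⟩
  · -- open both
    intro h0 h1
    have oR := upR.1 h0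
    have oL := upL.1 h1
    have nR := push_new hF hR oR
    have nL := push_new hF hL oL
    refine ⟨⟨eR, eL, hne, ⟨hR, nR.1, Or.inl ⟨pR, by omega⟩⟩, ⟨hL, nL.1, Or.inr ⟨pL, by omega⟩⟩,
      mt_new aR aL⟩, ?_⟩
    have key : ∀ c f, c ≠ 0 → At n H (H i) c f → At n H (H i + 1) (foo c) f := by
      rintro c f hc ⟨hf, hof, hs⟩
      rcases hs with ⟨hp, hs⟩ | ⟨hp, hs⟩
      · obtain ⟨_, g1, g2⟩ := push_old hF hin hR aR oR hf (uR hp) hof
        refine ⟨hf, g1, Or.inl ⟨hp, ?_⟩⟩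
        unfold foo
        rw [if_pos (by omega)]
        omega
      · obtain ⟨_, g1, g2⟩ := push_old hF hin hL aL oL hf (uL hp) hof
        refine ⟨hf, g1, Or.inr ⟨hp, ?_⟩⟩
        unfold foo
        rw [if_neg (by omega)]
        omega
    rintro c c' hc hc' ⟨e, f, hef, he, hf, hm⟩
    exact ⟨e, f, hef, key c e hc he, key c' f hc' hf, mt_mono hm⟩
  · -- close both
    intro h0 h1
    have cR := nupR h0
    have cL := nupL h1
    have rR := pop_arc hF hin hR aR cR
    have rL := pop_arc hF hin hL aL cL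
    have at7 : ∀ e, At n H (H i) 7 e → e = eR := by
      rintro e ⟨he, hoe, hs⟩
      by_contra hcon
      rcases hs with ⟨hp, hs⟩ | ⟨hp, hs⟩
      · have := (pop_old hF hin hR aR cR he (uR hp) hcon hoe).2
        omega
      · omega
    have at8 : ∀ e, At n H (H i) 8 e → e = eL := by
      rintro e ⟨he, hoe, hs⟩
      by_contra hcon
      rcases hs with ⟨hp, hs⟩ | ⟨hp, hs⟩
      · omega
      · have := (pop_old hF hin hL aL cL he (uL hp) hcon hoe).2
        omega
    have key : ∀ c f, c ≠ 7 → c ≠ 8 → At n H (H i) c f → At n H (H i + 1) (fcc c) f := by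
      rintro c f hc hc' ⟨hf, hof, hs⟩
      rcases hs with ⟨hp, hs⟩ | ⟨hp, hs⟩
      · have hfe : f ≠ eR := by rintro rfl; omega
        obtain ⟨g1, g2⟩ := pop_old hF hin hR aR cR hf (uR hp) hfe hof
        refine ⟨hf, g1, Or.inl ⟨hp, ?_⟩⟩
        unfold fcc
        rw [if_pos (by omega)]
        omega
      · have hfe : f ≠ eL := by rintro rfl; omega
        obtain ⟨g1, g2⟩ := pop_old hF hin hL aL cL hf (uL hp) hfe hof
        refine ⟨hf, g1, Or.inr ⟨hp, ?_⟩⟩
        unfold fcc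
        rw [if_neg (by omega)]
        omega
    refine ⟨?_, ?_, ?_⟩
    · rintro ⟨e, f, hef, he, hf, hm⟩
      have h2 := at7 e he
      have h3 := at8 f hf
      subst h2; subst h3
      exact not_mt aR aL hne hm
    · rintro c c' hc hc2 hc' hc2' ⟨e, f, hef, he, hf, hm⟩
      exact ⟨e, f, hef, key c e hc hc2 he, key c' f hc' hc2' hf, mt_mono hm⟩
    · rintro x y hx hx' hy hy' ⟨e, f, hef, he, hf, hm⟩ ⟨e', f', hef', he', hf', hm'⟩
      have h2 := at7 f hf
      have h3 := at8 f' hf'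
      subst h2; subst h3
      obtain ⟨g1, g2⟩ := mt_join aR aL hne hef hef' hm hm'
      exact ⟨e, e', g2, key x e hx hx' he, key y e' hy hy' he', g1⟩

end PkgSM

theorem t_SM : S_SM := by
  intro n H i hF hi0 hin
  by_cases h : i % 2 = 0
  · exact PkgSM.core (eR := i) (eL := i - 1) hF hin.le hin (by omega) (Or.inl rfl)
      (Or.inr (by omega)) h (by omega)
  · exact PkgSM.core (eR := i - 1) (eL := i) hF hin.le (by omega) hin (Or.inr (by omega))
      (Or.inl rfl) (by omega) (by omega)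

end Pool.U397.SF
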