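import Pool.Agent.U397.SF.ChkAll
import Pool.Agent.U397.SF.Bit
import Pool.Agent.U397.SF.PkgSM
import Pool.Agent.U397.SF.PkgIN
import Pool.Agent.U397.SF.PkgCT
import Pool.Agent.U397.SF.PkgME

/-!
# Upper bound for the number of folded states (helper397)
-/

set_option autoImplicit false

namespace Pool.U397.SF

open Classical in
/-- letter at height `t` -/
noncomputable def ltr (n : ℕ) (H : ℕ → ℕ) (t : ℕ) : Bool × Bool :=
  (decide (Up n H 0 t), decide (Up n H 1 t))

def nxtT (s : ℕ) (a : Bool × Bool) : ℕ :=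
  match a with
  | (true, true) => fN (rcd s) 0
  | (false, false) => fN (rcd s) 1
  | (false, true) => fN (rcd s) 2
  | (true, false) => fN (rcd s) 3

def badT (s : ℕ) (a : Bool × Bool) : Bool :=
  match a with
  | (false, false) => tb (fMask (rcd s)) 120
  | _ => false

def vT (s : ℕ) : ℕ := fV (rcd s)

structure Good (s : ℕ) : Prop where
  w : sub (fMask (rcd s)) mW = true
  n0 : fN (rcd s) 0 < 7188
  n1 : fN (rcd s) 1 < 7188
  n2 : fN (rcd s) 2 < 7188
  n3 : fN (rcd s) 3 < 7188
  v1 : 1 ≤ fV (rcd s)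
  sum : (fV (rcd (fN (rcd s) 0)) + fV (rcd (fN (rcd s) 2)) + fV (rcd (fN (rcd s) 3)) +
    (bif tb (fMask (rcd s)) 120 then 0 else fV (rcd (fN (rcd s) 1)))) * 10000 ≤
    35835 * fV (rcd s)
  oo : sub (fMask (rcd (fN (rcd s) 0))) (dOO (fMask (rcd s))) = true
  co : sub (fMask (rcd (fN (rcd s) 2))) (Nat.shiftLeft (fMask (rcd s)) 17) = true
  oc : sub (fMask (rcd (fN (rcd s) 3))) (Nat.shiftRight (fMask (rcd s)) 17) = true
  cc : tb (fMask (rcd s)) 120 = true ∨
    sub (fMask (rcd (fN (rcd s) 1)))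
      (Nat.lor (dCC (fMask (rcd s))) (dMG (fMask (rcd s)) (fX (rcd s)) (fY (rcd s)))) = true

theorem good (s : ℕ) (hs : s < 7188) : Good s := by
  have h := chk_all s hs
  unfold chk at h
  simp only [fv_eq, Bool.and_eq_true, Bool.or_eq_true] at h
  obtain ⟨⟨⟨⟨⟨⟨⟨⟨⟨⟨h0, h1⟩, h2⟩, h3⟩, h4⟩, h5⟩, h6⟩, h7⟩, h8⟩, h9⟩, h10⟩ := h
  have hlt : ∀ a b, Nat.blt a b = true → a < b := fun a b h => Nat.le_of_ble_eq_true h
  exact ⟨h0, hlt _ _ h1, hlt _ _ h2, hlt _ _ h3, hlt _ _ h4, Nat.le_of_ble_eq_true h5,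
    Nat.le_of_ble_eq_true h6, h7, h8, h9, h10⟩

theorem mask0 : fMask (rcd 0) = 0 := by decide +kernel
theorem v0_eq : vT 0 = 8000000 := by decide +kernel

/-- one step of the automaton along a folding -/
theorem step_ok {n : ℕ} {H : ℕ → ℕ} (hF : Fold n H) {i : ℕ} (h0 : 0 < i) (hn : i < n)
    {s : ℕ} (hs : s < 7188) (hc : Cmp n H (H i) (fMask (rcd s))) :
    badT s (ltr n H (H i)) = false ∧ nxtT s (ltr n H (H i)) < 7188 ∧
    Cmp n H (H i + 1) (fMask (rcd (nxtT s (ltr n H (H i))))) := by
  classical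
  obtain ⟨S1, S2, S3, S4⟩ := t_SM n H i hF h0 hn
  have g := good s hs
  by_cases u0 : Up n H 0 (H i)
  · by_cases u1 : Up n H 1 (H i)
    · have e : ltr n H (H i) = (true, true) := by unfold ltr; simp [u0, u1]
      rw [e]
      obtain ⟨a, b⟩ := S3 u0 u1
      exact ⟨rfl, g.n0, cmp_oo a b hc g.oo⟩
    · have e : ltr n H (H i) = (true, false) := by unfold ltr; simp [u0, u1]
      rw [e]
      exact ⟨rfl, g.n3, cmp_oc (S2 u0 u1) g.w hc g.oc⟩
  · by_cases u1 : Up n H 1 (H i)
    · have e : ltr n H (H i) = (false, true) := by unfold ltr; simp [u0, u1]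
      rw [e]
      exact ⟨rfl, g.n2, cmp_co (S1 u0 u1) hc g.co⟩
    · have e : ltr n H (H i) = (false, false) := by unfold ltr; simp [u0, u1]
      rw [e]
      obtain ⟨a, b, c⟩ := S4 u0 u1
      have hbad : tb (fMask (rcd s)) 120 = false := by
        rw [Bool.eq_false_iff]
        intro h
        rw [tb_eq] at h
        exact a (hc 7 8 (by norm_num) (by norm_num) h)
      refine ⟨hbad, g.n1, ?_⟩
      rcases g.cc with h | h
      · rw [hbad] at h; exact absurd h (by simp)
      · exact cmp_cc b c hc h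

theorem exists_idx {n : ℕ} {H : ℕ → ℕ} (hF : Fold n H) {t : ℕ} (ht : t ≤ n) :
    ∃ i, i ≤ n ∧ H i = t := by
  have hinj : Set.InjOn H (Finset.range (n + 1)) := by
    intro a ha b hb hab
    simp only [Finset.coe_range, Set.mem_Iio] at ha hb
    exact hF.inj a b (by omega) (by omega) hab
  have him : (Finset.range (n + 1)).image H ⊆ Finset.range (n + 1) := by
    intro x hx
    rw [Finset.mem_image] at hx
    obtain ⟨a, ha, rfl⟩ := hx
    rw [Finset.mem_range] at ha ⊢
    have := hF.le a (by omega)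
    omega
  have hcard : ((Finset.range (n + 1)).image H).card = (Finset.range (n + 1)).card :=
    Finset.card_image_of_injOn hinj
  have heq := Finset.eq_of_subset_of_card_le him (by rw [hcard])
  have : t ∈ (Finset.range (n + 1)).image H := by
    rw [heq, Finset.mem_range]; omega
  rw [Finset.mem_image] at this
  obtain ⟨i, hi, rfl⟩ := this
  rw [Finset.mem_range] at hi
  exact ⟨i, by omega, rfl⟩

theorem valid_fold {n : ℕ} {H : ℕ → ℕ} (hF : Fold n H) :
    ∀ m t s, t + m = n + 1 → s < 7188 → Cmp n H t (fMask (rcd s)) →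
      valid nxtT badT (H 0) (H n) m t s (fun i => ltr n H (t + i)) := by
  intro m
  induction m with
  | zero => intro t s _ _ _; exact trivial
  | succ m ih =>
    intro t s htm hs hc
    have htail : (fun i : Fin m => (fun i : Fin (m + 1) => ltr n H (t + i)) i.succ) =
        fun i : Fin m => ltr n H (t + 1 + i) := by
      funext i
      show ltr n H (t + (i.succ : Fin (m + 1)).val) = _
      rw [Fin.val_succ]
      congr 1
      omega
    by_cases hp : t = H 0 ∨ t = H n
    · left
      refine ⟨hp, ?_⟩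
      rw [htail]
      refine ih (t + 1) 0 (by omega) (by norm_num) ?_
      rw [mask0]
      exact cmp_zero n H (t + 1)
    · right
      obtain ⟨i, hi, hit⟩ := exists_idx hF (t := t) (by omega)
      have hi0 : 0 < i := by
        rcases Nat.eq_zero_or_pos i with h | h
        · exfalso; apply hp; left; rw [← hit, h]
        · exact h
      have hin : i < n := by
        rcases Nat.lt_or_eq_of_le hi with h | h
        · exact h
        · exfalso; apply hp; right; rw [← hit, h]
      have hstep := step_ok hF hi0 hin hs (by rw [hit]; exact hc)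
      rw [hit] at hstep
      have e0 : (fun i : Fin (m + 1) => ltr n H (t + i)) 0 = ltr n H t := by
        simp
      refine ⟨hp, ?_, ?_⟩
      · rw [e0]; exact hstep.1
      · rw [htail, e0]
        exact ih (t + 1) _ (by omega) hstep.2.1 hstep.2.2

/-- the height function of a permutation -/
def HF (n : ℕ) (h : Equiv.Perm (Fin (n + 1))) (i : ℕ) : ℕ :=
  if hi : i < n + 1 then (h ⟨i, hi⟩ : ℕ) else 0

theorem HF_of_lt {n : ℕ} (h : Equiv.Perm (Fin (n + 1))) {i : ℕ} (hi : i < n + 1) :
    HF n h i = (h ⟨i, hi⟩ : ℕ) := by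
  unfold HF
  rw [dif_pos hi]

theorem fold_of {n : ℕ} {h : Equiv.Perm (Fin (n + 1))} (hN : NonPen n h) : Fold n (HF n h) := by
  refine ⟨?_, ?_, ?_⟩
  · intro i hi
    rw [HF_of_lt h (by omega)]
    have := (h ⟨i, by omega⟩).2
    omega
  · intro i j hi hj hij
    rw [HF_of_lt h (by omega), HF_of_lt h (by omega)] at hij
    have h1 := h.injective (Fin.ext hij)
    exact congrArg Fin.val h1
  · intro e f he hf hpar
    have h1 := hN ⟨e, he⟩ ⟨f, hf⟩ hpar
    have a1 : ((h (Fin.castSucc ⟨e, he⟩) : Fin (n + 1)) : ℕ) = HF n h e := by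
      rw [HF_of_lt h (by omega)]; rfl
    have a2 : ((h (Fin.succ ⟨e, he⟩) : Fin (n + 1)) : ℕ) = HF n h (e + 1) := by
      rw [HF_of_lt h (by omega)]; rfl
    have a3 : ((h (Fin.castSucc ⟨f, hf⟩) : Fin (n + 1)) : ℕ) = HF n h f := by
      rw [HF_of_lt h (by omega)]; rfl
    have a4 : ((h (Fin.succ ⟨f, hf⟩) : Fin (n + 1)) : ℕ) = HF n h (f + 1) := by
      rw [HF_of_lt h (by omega)]; rfl
    intro hc
    apply h1
    unfold lo hi at hc
    rw [← a1, ← a2, ← a3, ← a4] at hc
    have mn : ∀ a b : Fin (n + 1), ((min a b : Fin (n + 1)) : ℕ) = min (a : ℕ) (b : ℕ) := by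
      intro a b
      rcases le_total a b with h | h
      · rw [min_eq_left h, min_eq_left (by exact_mod_cast h)]
      · rw [min_eq_right h, min_eq_right (by exact_mod_cast h)]
    have mx : ∀ a b : Fin (n + 1), ((max a b : Fin (n + 1)) : ℕ) = max (a : ℕ) (b : ℕ) := by
      intro a b
      rcases le_total a b with h | h
      · rw [max_eq_right h, max_eq_right (by exact_mod_cast h)]
      · rw [max_eq_left h, max_eq_left (by exact_mod_cast h)]
    refine ⟨?_, ?_, ?_⟩
    · rw [Fin.lt_def, mn, mn]; exact hc.1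
    · rw [Fin.lt_def, mn, mx]; exact hc.2.1
    · rw [Fin.lt_def, mx, mx]; exact hc.2.2

/-- the code of a folded state -/
noncomputable def code (n : ℕ) (h : {h : Equiv.Perm (Fin (n + 1)) // NonPen n h}) :
    Σ pq : Fin (n + 1) × Fin (n + 1),
      {w : Fin (n + 1) → Bool × Bool // valid nxtT badT pq.1 pq.2 (n + 1) 0 0 w} :=
  ⟨(h.1 0, h.1 (Fin.last n)), ⟨fun i => ltr n (HF n h.1) i, by
    have hF := fold_of h.2
    have h1 := valid_fold hF (n + 1) 0 0 (by omega) (by norm_num)
      (by rw [mask0]; exact cmp_zero n _ 0)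
    have e0 : HF n h.1 0 = ((h.1 0 : Fin (n + 1)) : ℕ) := by
      rw [HF_of_lt h.1 (by omega)]; rfl
    have e1 : HF n h.1 n = ((h.1 (Fin.last n) : Fin (n + 1)) : ℕ) := by
      rw [HF_of_lt h.1 (by omega)]; rfl
    rw [e0, e1] at h1
    have e2 : (fun i : Fin (n + 1) => ltr n (HF n h.1) (0 + i)) =
        fun i : Fin (n + 1) => ltr n (HF n h.1) i := by
      funext i; rw [Nat.zero_add]
    rw [e2] at h1
    exact h1⟩⟩

theorem code_inj (n : ℕ) : Function.Injective (code n) := by
  classical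
  intro h h' e
  have hF := fold_of h.2
  have hF' := fold_of h'.2
  have e1 : (h.1 0, h.1 (Fin.last n)) = (h'.1 0, h'.1 (Fin.last n)) := congrArg Sigma.fst e
  have e10 : h.1 0 = h'.1 0 := congrArg Prod.fst e1
  have e11 : h.1 (Fin.last n) = h'.1 (Fin.last n) := congrArg Prod.snd e1
  have e2 : (fun i : Fin (n + 1) => ltr n (HF n h.1) i) =
      fun i : Fin (n + 1) => ltr n (HF n h'.1) i := by
    have := congrArg (fun z : (Σ pq : Fin (n + 1) × Fin (n + 1),
      {w : Fin (n + 1) → Bool × Bool // valid nxtT badT pq.1 pq.2 (n + 1) 0 0 w}) => z.2.1) e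
    exact this
  have h3 : ∀ i, i ≤ n → HF n h.1 i = HF n h'.1 i := by
    refine t_IN n _ _ hF hF' ?_ ?_ ?_
    · rw [HF_of_lt h.1 (by omega), HF_of_lt h'.1 (by omega)]
      exact congrArg Fin.val e10
    · rw [HF_of_lt h.1 (by omega), HF_of_lt h'.1 (by omega)]
      exact congrArg Fin.val e11
    · intro σ t hσ ht
      have h4 := congrFun e2 ⟨t, by omega⟩
      have h5 : (decide (Up n (HF n h.1) 0 t), decide (Up n (HF n h.1) 1 t)) =
          (decide (Up n (HF n h'.1) 0 t), decide (Up n (HF n h'.1) 1 t)) := by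
        have h6 : ltr n (HF n h.1) t = ltr n (HF n h'.1) t := h4
        unfold ltr at h6
        convert h6 using 2
      rw [Prod.mk.injEq, decide_eq_decide, decide_eq_decide] at h5
      rcases (show σ = 0 ∨ σ = 1 by omega) with rfl | rfl
      · exact h5.1
      · exact h5.2
  apply Subtype.ext
  apply Equiv.ext
  intro x
  apply Fin.ext
  have h4 := h3 x.1 (by have := x.2; omega)
  rw [HF_of_lt h.1 x.2, HF_of_lt h'.1 x.2] at h4
  exact h4

theorem count_valid (p q m : ℕ) :
    (Nat.card {w : Fin m → Bool × Bool // valid nxtT badT p q m 0 0 w}) * 10000 ^ m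
      ≤ (4 * vT 0) ^ 2 * 35835 ^ m * vT 0 := by
  refine t_CT nxtT badT vT 7188 35835 10000 (by norm_num) (by norm_num) (by norm_num) ?_ ?_ ?_
    p q m
  · intro s hs; exact (good s hs).v1
  · rintro s hs ⟨_ | _, _ | _⟩ _
    · exact (good s hs).n1
    · exact (good s hs).n2
    · exact (good s hs).n3
    · exact (good s hs).n0
  · intro s hs
    have g := (good s hs).sum
    rw [Fintype.sum_prod_type, Fintype.sum_bool, Fintype.sum_bool, Fintype.sum_bool]
    change ((if (false : Bool) = false then vT (fN (rcd s) 0) else 0) +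
      (if (false : Bool) = false then vT (fN (rcd s) 3) else 0) +
      ((if (false : Bool) = false then vT (fN (rcd s) 2) else 0) +
      (if badT s (false, false) = false then vT (fN (rcd s) 1) else 0))) * 10000 ≤
      35835 * vT s
    have hbd : badT s (false, false) = tb (fMask (rcd s)) 120 := rfl
    rw [if_pos rfl, if_pos rfl, if_pos rfl, hbd]
    unfold vT
    generalize tb (fMask (rcd s)) 120 = B at g ⊢
    generalize fV (rcd (fN (rcd s) 0)) = x0 at g ⊢
    generalize fV (rcd (fN (rcd s) 1)) = x1 at g ⊢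
    generalize fV (rcd (fN (rcd s) 2)) = x2 at g ⊢
    generalize fV (rcd (fN (rcd s) 3)) = x3 at g ⊢
    generalize fV (rcd s) = x4 at g ⊢
    cases B
    · rw [if_pos rfl]
      have e : x0 + x3 + (x2 + x1) = x0 + x2 + x3 + (bif false then 0 else x1) := by
        rw [cond_false]; ring
      rw [e]; exact g
    · rw [if_neg (by simp)]
      have e : x0 + x3 + (x2 + 0) = x0 + x2 + x3 + (bif true then 0 else x1) := by
        rw [cond_true]; ring
      rw [e]; exact g

theorem foldings_le (n : ℕ) :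
    foldings n * 10000 ^ (n + 1) ≤
      (n + 1) ^ 2 * ((4 * 8000000) ^ 2 * 35835 ^ (n + 1) * 8000000) := by
  classical
  have h1 : foldings n ≤ Nat.card (Σ pq : Fin (n + 1) × Fin (n + 1),
      {w : Fin (n + 1) → Bool × Bool // valid nxtT badT pq.1 pq.2 (n + 1) 0 0 w}) :=
    Nat.card_le_card_of_injective _ (code_inj n)
  rw [Nat.card_sigma] at h1
  calc foldings n * 10000 ^ (n + 1)
      ≤ (∑ pq : Fin (n + 1) × Fin (n + 1), Nat.card
          {w : Fin (n + 1) → Bool × Bool // valid nxtT badT pq.1 pq.2 (n + 1) 0 0 w}) *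
          10000 ^ (n + 1) := Nat.mul_le_mul_right _ h1
    _ = ∑ pq : Fin (n + 1) × Fin (n + 1), Nat.card
          {w : Fin (n + 1) → Bool × Bool // valid nxtT badT pq.1 pq.2 (n + 1) 0 0 w} *
          10000 ^ (n + 1) := by rw [Finset.sum_mul]
    _ ≤ ∑ _pq : Fin (n + 1) × Fin (n + 1),
          ((4 * 8000000) ^ 2 * 35835 ^ (n + 1) * 8000000) := by
        apply Finset.sum_le_sum
        intro pq _
        have := count_valid pq.1 pq.2 (n + 1)
        rw [v0_eq] at this
        exact this
    _ = (n + 1) ^ 2 * ((4 * 8000000) ^ 2 * 35835 ^ (n + 1) * 8000000) := by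
        rw [Finset.sum_const, Finset.card_univ, Fintype.card_prod, Fintype.card_fin, smul_eq_mul,
          ← pow_two]

end Pool.U397.SF
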