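import Pool.Agent.U397.SF.Tab

/-!
# Kernel check of the table (helper397)
-/

set_option autoImplicit false

namespace Pool.U397.SF

/-- call by value (for kernel evaluation) -/
def fv {α : Type} (r : ℕ) (f : ℕ → α) : α :=
  Nat.rec (motive := fun _ => α) (f 0) (fun m _ => f (m + 1)) r

theorem fv_eq {α : Type} (r : ℕ) (f : ℕ → α) : fv r f = f r := by
  cases r <;> rfl

def nth : List ℕ → ℕ → ℕ := fun l =>
  List.rec (motive := fun _ => ℕ → ℕ) (fun _ => 0)
    (fun a _ ih k => Nat.rec (motive := fun _ => ℕ) a (fun k' _ => ih k') k) l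

/-- record of a state -/
def rcd (s : ℕ) : ℕ := (Nat.shiftRight (nth tabs (s / 512)) (352 * (s % 512))) % 2 ^ 352

def fMask (r : ℕ) : ℕ := r % 2 ^ 240
def fV (r : ℕ) : ℕ := (Nat.shiftRight r 240) % 2 ^ 24
def fN (r k : ℕ) : ℕ := (Nat.shiftRight r (264 + 16 * k)) % 2 ^ 16
def fX (r : ℕ) : ℕ := (Nat.shiftRight r 328) % 256
def fY (r : ℕ) : ℕ := (Nat.shiftRight r 336) % 256

def tb (m i : ℕ) : Bool := Nat.beq ((Nat.shiftRight m i) % 2) 1
def sub (a b : ℕ) : Bool := Nat.beq (Nat.land a b) a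

/-- bit masks: pairs `c<d` with `d ≤ 7` / `c ≥ 8` / `c ≤ 7 < d` / `d ≤ 6` / `c ≥ 9` /
`c ≤ 6, d ≥ 9` -/
def mLL : ℕ := 10141436919715339448345687752958
def mRR : ℕ := 883443752709152534561174752006055260078894608508356002972395323772633088
def mLR : ℕ := 338958311018522360492699998064329424640
def mL6 : ℕ := 77373023374293056093945982
def mR9 : ℕ := 883443752709152534561174751983928739452227505860113532498752027590918144
def mX9 : ℕ := 5151810649719518298887113653943808
/-- all pairs `c<d<16` -/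
def mW : ℕ := 883443752709152534561174752006055599037215768467636211011841733789810686

def PC (m c d : ℕ) : Bool := tb m (16 * min c d + max c d)

def fc (c : ℕ) : ℕ := bif Nat.ble c 6 then c + 1 else c - 1

def dOO (m : ℕ) : ℕ :=
  Nat.lor (Nat.lor (Nat.shiftRight (Nat.land m mLL) 17) (Nat.shiftLeft (Nat.land m mRR) 17))
    (Nat.lor (Nat.shiftRight (Nat.land m mLR) 15) (2 ^ 120))

def dCC (m : ℕ) : ℕ :=
  Nat.lor (Nat.lor (Nat.shiftLeft (Nat.land m mL6) 17) (Nat.shiftRight (Nat.land m mR9) 17))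
    (Nat.shiftLeft (Nat.land m mX9) 15)

def sl (x : ℕ) : Bool := Nat.ble x 6 || (Nat.ble 9 x && Nat.ble x 15)

def dMG (m x y : ℕ) : ℕ :=
  bif sl x && sl y && PC m x 7 && PC m y 8 then
    2 ^ (16 * min (fc x) (fc y) + max (fc x) (fc y)) else 0

def chk (s : ℕ) : Bool :=
  fv (rcd s) fun r => fv (fMask r) fun m =>
  fv (rcd (fN r 0)) fun r0 => fv (rcd (fN r 1)) fun r1 =>
  fv (rcd (fN r 2)) fun r2 => fv (rcd (fN r 3)) fun r3 =>
  sub m mW && Nat.blt (fN r 0) 7188 && Nat.blt (fN r 1) 7188 && Nat.blt (fN r 2) 7188 &&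
  Nat.blt (fN r 3) 7188 && Nat.ble 1 (fV r) &&
  Nat.ble ((fV r0 + fV r2 + fV r3 + (bif tb m 120 then 0 else fV r1)) * 10000)
    (35835 * fV r) &&
  sub (fMask r0) (dOO m) && sub (fMask r2) (Nat.shiftLeft m 17) &&
  sub (fMask r3) (Nat.shiftRight m 17) &&
  (tb m 120 || sub (fMask r1) (Nat.lor (dCC m) (dMG m (fX r) (fY r))))

/-- check of the states `s, …, s+k-1` -/
def allR (k : ℕ) : ℕ → Bool :=
  Nat.rec (motive := fun _ => ℕ → Bool) (fun _ => true)
    (fun _ ih s => chk s && fv (s + 1) ih) k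

theorem allR_spec : ∀ k s, allR k s = true → ∀ j, s ≤ j → j < s + k → chk j = true := by
  intro k
  induction k with
  | zero => intro s _ j h1 h2; omega
  | succ k ih =>
    intro s h j h1 h2
    have h' : (chk s && fv (s + 1) (allR k)) = true := h
    rw [fv_eq, Bool.and_eq_true] at h'
    rcases Nat.eq_or_lt_of_le h1 with h3 | h3
    · rw [← h3]; exact h'.1
    · exact ih (s + 1) h'.2 j h3 (by omega)

end Pool.U397.SF
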