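import Pool.Agent.U397.SF.Chk

/-!
# All states pass the check (helper397)
-/

set_option autoImplicit false

namespace Pool.U397.SF

theorem ck0 : allR 256 0 = true := by decide +kernel
theorem ck1 : allR 256 256 = true := by decide +kernel
theorem ck2 : allR 256 512 = true := by decide +kernel
theorem ck3 : allR 256 768 = true := by decide +kernel
theorem ck4 : allR 256 1024 = true := by decide +kernel
theorem ck5 : allR 256 1280 = true := by decide +kernel
theorem ck6 : allR 256 1536 = true := by decide +kernel
theorem ck7 : allR 256 1792 = true := by decide +kernel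
theorem ck8 : allR 256 2048 = true := by decide +kernel
theorem ck9 : allR 256 2304 = true := by decide +kernel
theorem ck10 : allR 256 2560 = true := by decide +kernel
theorem ck11 : allR 256 2816 = true := by decide +kernel
theorem ck12 : allR 256 3072 = true := by decide +kernel
theorem ck13 : allR 256 3328 = true := by decide +kernel
theorem ck14 : allR 256 3584 = true := by decide +kernel
theorem ck15 : allR 256 3840 = true := by decide +kernel
theorem ck16 : allR 256 4096 = true := by decide +kernel
theorem ck17 : allR 256 4352 = true := by decide +kernel
theorem ck18 : allR 256 4608 = true := by decide +kernel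
theorem ck19 : allR 256 4864 = true := by decide +kernel
theorem ck20 : allR 256 5120 = true := by decide +kernel
theorem ck21 : allR 256 5376 = true := by decide +kernel
theorem ck22 : allR 256 5632 = true := by decide +kernel
theorem ck23 : allR 256 5888 = true := by decide +kernel
theorem ck24 : allR 256 6144 = true := by decide +kernel
theorem ck25 : allR 256 6400 = true := by decide +kernel
theorem ck26 : allR 256 6656 = true := by decide +kernel
theorem ck27 : allR 256 6912 = true := by decide +kernel
theorem ck28 : allR 20 7168 = true := by decide +kernel

theorem chk_all : ∀ s, s < 7188 → chk s = true := by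
  intro s hs
  by_cases h0 : s < 256
  · exact allR_spec _ _ ck0 s (by omega) (by omega)
  by_cases h1 : s < 512
  · exact allR_spec _ _ ck1 s (by omega) (by omega)
  by_cases h2 : s < 768
  · exact allR_spec _ _ ck2 s (by omega) (by omega)
  by_cases h3 : s < 1024
  · exact allR_spec _ _ ck3 s (by omega) (by omega)
  by_cases h4 : s < 1280
  · exact allR_spec _ _ ck4 s (by omega) (by omega)
  by_cases h5 : s < 1536
  · exact allR_spec _ _ ck5 s (by omega) (by omega)
  by_cases h6 : s < 1792
  · exact allR_spec _ _ ck6 s (by omega) (by omega)
  by_cases h7 : s < 2048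
  · exact allR_spec _ _ ck7 s (by omega) (by omega)
  by_cases h8 : s < 2304
  · exact allR_spec _ _ ck8 s (by omega) (by omega)
  by_cases h9 : s < 2560
  · exact allR_spec _ _ ck9 s (by omega) (by omega)
  by_cases h10 : s < 2816
  · exact allR_spec _ _ ck10 s (by omega) (by omega)
  by_cases h11 : s < 3072
  · exact allR_spec _ _ ck11 s (by omega) (by omega)
  by_cases h12 : s < 3328
  · exact allR_spec _ _ ck12 s (by omega) (by omega)
  by_cases h13 : s < 3584
  · exact allR_spec _ _ ck13 s (by omega) (by omega)
  by_cases h14 : s < 3840
  · exact allR_spec _ _ ck14 s (by omega) (by omega)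
  by_cases h15 : s < 4096
  · exact allR_spec _ _ ck15 s (by omega) (by omega)
  by_cases h16 : s < 4352
  · exact allR_spec _ _ ck16 s (by omega) (by omega)
  by_cases h17 : s < 4608
  · exact allR_spec _ _ ck17 s (by omega) (by omega)
  by_cases h18 : s < 4864
  · exact allR_spec _ _ ck18 s (by omega) (by omega)
  by_cases h19 : s < 5120
  · exact allR_spec _ _ ck19 s (by omega) (by omega)
  by_cases h20 : s < 5376
  · exact allR_spec _ _ ck20 s (by omega) (by omega)
  by_cases h21 : s < 5632
  · exact allR_spec _ _ ck21 s (by omega) (by omega)
  by_cases h22 : s < 5888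
  · exact allR_spec _ _ ck22 s (by omega) (by omega)
  by_cases h23 : s < 6144
  · exact allR_spec _ _ ck23 s (by omega) (by omega)
  by_cases h24 : s < 6400
  · exact allR_spec _ _ ck24 s (by omega) (by omega)
  by_cases h25 : s < 6656
  · exact allR_spec _ _ ck25 s (by omega) (by omega)
  by_cases h26 : s < 6912
  · exact allR_spec _ _ ck26 s (by omega) (by omega)
  by_cases h27 : s < 7168
  · exact allR_spec _ _ ck27 s (by omega) (by omega)
  exact allR_spec _ _ ck28 s (by omega) (by omega)

end Pool.U397.SF
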