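import Pool.Agent.U397.SF.Asm

/-!
# Real forms of the bounds (helper397)
-/

set_option autoImplicit false

namespace Pool.U397.SF

theorem foldings_real (n : ℕ) :
    (foldings n : ℝ) ≤ 10 ^ 23 * ((n : ℝ) + 1) ^ 2 * (3.5835 : ℝ) ^ n := by
  have h := foldings_le n
  have h2 : (foldings n : ℝ) * 10000 ^ (n + 1) ≤
      ((n : ℝ) + 1) ^ 2 * ((4 * 8000000) ^ 2 * 35835 ^ (n + 1) * 8000000) := by
    exact_mod_cast h
  have hp : (0 : ℝ) < 10000 ^ (n + 1) := by positivity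
  have e : (3.5835 : ℝ) ^ n * 10000 ^ (n + 1) = 35835 ^ n * 10000 := by
    rw [pow_succ, ← mul_assoc, ← mul_pow]
    norm_num
  rw [← mul_le_mul_iff_left₀ hp]
  refine h2.trans ?_
  calc ((n : ℝ) + 1) ^ 2 * ((4 * 8000000) ^ 2 * 35835 ^ (n + 1) * 8000000)
      = ((n : ℝ) + 1) ^ 2 * 35835 ^ n * ((4 * 8000000) ^ 2 * 35835 * 8000000) := by ring
    _ ≤ ((n : ℝ) + 1) ^ 2 * 35835 ^ n * (10 ^ 23 * 10000) := by
        apply mul_le_mul_of_nonneg_left _ (by positivity)
        norm_num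
    _ = 10 ^ 23 * ((n : ℝ) + 1) ^ 2 * ((3.5835 : ℝ) ^ n * 10000 ^ (n + 1)) := by
        rw [e]; ring
    _ = 10 ^ 23 * ((n : ℝ) + 1) ^ 2 * (3.5835 : ℝ) ^ n * 10000 ^ (n + 1) := by ring

/-- `limsup a_n^{1/n} ≤ λ` from `a_n ≤ C (n+1)^2 λ^n` -/
theorem limsup_of_le {a : ℕ → ℝ} (ha : ∀ n, 0 ≤ a n) {C lam : ℝ} (hC : 0 < C) (hl : 0 < lam)
    (h : ∀ n, a n ≤ C * ((n : ℝ) + 1) ^ 2 * lam ^ n) :
    Filter.limsup (fun n : ℕ => (a n) ^ ((1 : ℝ) / n)) Filter.atTop ≤ lam := by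
  have hlim : Filter.Tendsto (fun n : ℕ => (C * ((n : ℝ) + 1) ^ 2) ^ ((1 : ℝ) / n) * lam)
      Filter.atTop (nhds (1 * lam)) := by
    apply Filter.Tendsto.mul_const
    have h1 : Filter.Tendsto (fun n : ℕ => C ^ ((1 : ℝ) / n)) Filter.atTop (nhds 1) := by
      have h2 : Filter.Tendsto (fun n : ℕ => (1 : ℝ) / n) Filter.atTop (nhds 0) :=
        tendsto_one_div_atTop_nhds_zero_nat
      have h3 := (Real.continuous_const_rpow hC.ne').tendsto 0
      have h4 := h3.comp h2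
      rw [Real.rpow_zero] at h4
      exact h4
    have h5 : Filter.Tendsto (fun n : ℕ => ((n : ℝ) + 1) ^ ((2 : ℝ) / n)) Filter.atTop (nhds 1) := by
      have h6 := tendsto_rpow_div_mul_add 2 1 0 one_ne_zero.symm
      have h7 : Filter.Tendsto (fun n : ℕ => ((n : ℝ) ) ^ ((2 : ℝ) / n)) Filter.atTop (nhds 1) := by
        have h8 := h6.comp (tendsto_natCast_atTop_atTop (R := ℝ))
        refine h8.congr (fun n => ?_)
        simp
      have h9 : Filter.Tendsto (fun n : ℕ => (2 * (n : ℝ)) ^ ((2 : ℝ) / n)) Filter.atTop (nhds 1) := by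
        have h10 : Filter.Tendsto (fun n : ℕ => (2 : ℝ) ^ ((2 : ℝ) / n)) Filter.atTop (nhds 1) := by
          have h11 : Filter.Tendsto (fun n : ℕ => (2 : ℝ) / n) Filter.atTop (nhds 0) :=
            tendsto_const_div_atTop_nhds_zero_nat 2
          have h12 := ((Real.continuous_const_rpow (two_ne_zero)).tendsto 0).comp h11
          rw [Real.rpow_zero] at h12
          exact h12
        have h13 := h10.mul h7
        rw [one_mul] at h13
        refine h13.congr (fun n => ?_)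
        rw [Real.mul_rpow (by norm_num) (Nat.cast_nonneg n)]
      refine tendsto_of_tendsto_of_tendsto_of_le_of_le' tendsto_const_nhds h9 ?_ ?_
      · filter_upwards with n
        exact Real.one_le_rpow (by have : (0 : ℝ) ≤ n := Nat.cast_nonneg n; linarith)
          (by positivity)
      · filter_upwards [Filter.eventually_ge_atTop 1] with n hn
        apply Real.rpow_le_rpow (by positivity) _ (by positivity)
        have : (1 : ℝ) ≤ n := by exact_mod_cast hn
        linarith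
    have h14 := h1.mul h5
    rw [one_mul] at h14
    refine h14.congr' ?_
    filter_upwards [Filter.eventually_ge_atTop 1] with n hn
    rw [Real.mul_rpow hC.le (by positivity)]
    congr 1
    rw [← Real.rpow_natCast ((n : ℝ) + 1) 2, ← Real.rpow_mul (by positivity)]
    congr 1
    push_cast
    ring
  rw [one_mul] at hlim
  have hle : ∀ᶠ n : ℕ in Filter.atTop, (a n) ^ ((1 : ℝ) / n) ≤
      (C * ((n : ℝ) + 1) ^ 2) ^ ((1 : ℝ) / n) * lam := by
    filter_upwards [Filter.eventually_ge_atTop 1] with n hn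
    have hn0 : (n : ℝ) ≠ 0 := by
      have : (1 : ℝ) ≤ n := by exact_mod_cast hn
      linarith
    calc (a n) ^ ((1 : ℝ) / n) ≤ (C * ((n : ℝ) + 1) ^ 2 * lam ^ n) ^ ((1 : ℝ) / n) :=
          Real.rpow_le_rpow (ha n) (h n) (by positivity)
      _ = (C * ((n : ℝ) + 1) ^ 2) ^ ((1 : ℝ) / n) * (lam ^ n) ^ ((1 : ℝ) / n) :=
          Real.mul_rpow (by positivity) (by positivity)
      _ = (C * ((n : ℝ) + 1) ^ 2) ^ ((1 : ℝ) / n) * lam := by
          congr 1
          rw [← Real.rpow_natCast lam n, ← Real.rpow_mul hl.le, mul_one_div_cancel hn0,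
            Real.rpow_one]
  rw [← hlim.limsup_eq]
  refine Filter.limsup_le_limsup hle ?_ ?_
  · apply Filter.IsBoundedUnder.isCoboundedUnder_le
    refine ⟨0, ?_⟩
    rw [Filter.eventually_map]
    filter_upwards with n
    exact Real.rpow_nonneg (ha n) _
  · exact hlim.isBoundedUnder_le

theorem foldings_limsup :
    Filter.limsup (fun n : ℕ => (foldings n : ℝ) ^ ((1 : ℝ) / n)) Filter.atTop ≤ 3.5835 :=
  limsup_of_le (fun _ => Nat.cast_nonneg _) (C := 10 ^ 23) (by positivity) (by norm_num)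
    foldings_real

theorem meanders_real (N : ℕ) :
    ((Meanders N).ncard : ℝ) ≤ 10 ^ 24 * ((N : ℝ) + 1) ^ 2 * (12.8415 : ℝ) ^ N := by
  rcases Nat.eq_zero_or_pos N with rfl | hN
  · have h1 : (Meanders 0).ncard ≤ 1 := by
      rw [Set.ncard_le_one (Set.toFinite _)]
      intro a _ b _
      have hs : Subsingleton (Equiv.Perm (Fin (2 * 0))) := by
        rw [Nat.mul_zero]
        exact inferInstance
      exact Subsingleton.elim _ _
    have h2 : ((Meanders 0).ncard : ℝ) ≤ 1 := by exact_mod_cast h1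
    refine h2.trans ?_
    norm_num
  · obtain ⟨n, rfl⟩ : ∃ n, N = n + 1 := ⟨N - 1, by omega⟩
    have h1 : ((Meanders (n + 1)).ncard : ℝ) ≤ foldings (2 * n + 1) := by
      exact_mod_cast t_ME n
    refine h1.trans ((foldings_real (2 * n + 1)).trans ?_)
    push_cast
    have e1 : (3.5835 : ℝ) ^ (2 * n + 1) = (12.84147225 : ℝ) ^ n * 3.5835 := by
      rw [pow_succ, pow_mul]
      norm_num
    rw [e1]
    have e2 : (12.84147225 : ℝ) ^ n ≤ (12.8415 : ℝ) ^ n :=
      pow_le_pow_left₀ (by norm_num) (by norm_num) n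
    have e3 : (12.8415 : ℝ) ^ (n + 1) = (12.8415 : ℝ) ^ n * 12.8415 := pow_succ _ _
    rw [e3]
    have hn : (0 : ℝ) ≤ n := Nat.cast_nonneg n
    have hx : (0 : ℝ) < (12.8415 : ℝ) ^ n := by positivity
    calc (10 : ℝ) ^ 23 * (2 * (n : ℝ) + 1 + 1) ^ 2 * ((12.84147225 : ℝ) ^ n * 3.5835)
        ≤ (10 : ℝ) ^ 23 * (2 * (n : ℝ) + 1 + 1) ^ 2 * ((12.8415 : ℝ) ^ n * 3.5835) := by
          apply mul_le_mul_of_nonneg_left _ (by positivity)
          apply mul_le_mul_of_nonneg_right e2 (by norm_num)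
      _ = (10 : ℝ) ^ 23 * 4 * 3.5835 * ((n : ℝ) + 1) ^ 2 * (12.8415 : ℝ) ^ n := by ring
      _ ≤ 10 ^ 24 * ((n : ℝ) + 1 + 1) ^ 2 * ((12.8415 : ℝ) ^ n * 12.8415) := by
          have h3 : ((n : ℝ) + 1) ^ 2 ≤ ((n : ℝ) + 1 + 1) ^ 2 := by
            apply pow_le_pow_left₀ (by positivity); linarith
          have h4 : (0 : ℝ) ≤ ((n : ℝ) + 1 + 1) ^ 2 * (12.8415 : ℝ) ^ n := by positivity
          calc (10 : ℝ) ^ 23 * 4 * 3.5835 * ((n : ℝ) + 1) ^ 2 * (12.8415 : ℝ) ^ n
              ≤ (10 : ℝ) ^ 23 * 4 * 3.5835 * ((n : ℝ) + 1 + 1) ^ 2 * (12.8415 : ℝ) ^ n := by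
                apply mul_le_mul_of_nonneg_right _ hx.le
                apply mul_le_mul_of_nonneg_left h3 (by positivity)
            _ = (10 : ℝ) ^ 23 * 4 * 3.5835 * (((n : ℝ) + 1 + 1) ^ 2 * (12.8415 : ℝ) ^ n) := by
                ring
            _ ≤ 10 ^ 24 * 12.8415 * (((n : ℝ) + 1 + 1) ^ 2 * (12.8415 : ℝ) ^ n) := by
                apply mul_le_mul_of_nonneg_right _ h4
                norm_num
            _ = 10 ^ 24 * ((n : ℝ) + 1 + 1) ^ 2 * ((12.8415 : ℝ) ^ n * 12.8415) := by ring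

theorem meanders_limsup :
    Filter.limsup (fun N : ℕ => ((Meanders N).ncard : ℝ) ^ ((1 : ℝ) / N)) Filter.atTop
      ≤ 12.8415 :=
  limsup_of_le (fun _ => Nat.cast_nonneg _) (C := 10 ^ 24) (by positivity) (by norm_num)
    meanders_real

end Pool.U397.SF
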